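import Pool.Agent.Lib.H80A.PDDefs

/-!
# Chunk PD1: the smallest relation `PR Γ`, scaling

`pr_moves`: every field of `PMoves` is closed under intersection of relations.

`pr_scale`: for `r` with `PMoves Γ r` the relation `r' x x' K := r (x.sc l q) (x'.sc l q) ((1 + l) * K)`
has `PMoves Γ r'` (replace `u`, `t` by `l u`, `l t`; `|l u| ≤ (1+l) |u|`,
`√|l t| + |l t| ≤ (1+l) (√|t| + |t|)` since `√l ≤ 1 + l`; `l^5 (Q + P² t) + q = (l^5 Q + q) + (l² P)² (l t)`;
for `lim` use `tsum_mul_left`, `Summable.mul_left`).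
-/

namespace H80A

open Filter Topology

theorem pr_moves (Γ : ℝ) : PMoves Γ (PR Γ) := by
  sorry

theorem pr_scale {Γ : ℝ} {x x' : PS} {K : ℝ} (l q : ℝ) (hl : 0 < l) (h : PR Γ x x' K) :
    ∃ K', PR Γ (x.sc l q) (x'.sc l q) K' := by
  sorry

end H80A
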