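import Pool.Agent.Lib.H80A.PDDefs

/-!
# Chunk PD7: the normalised pair inside a node

Write `a = kap (c i) > 0`, `b = kap (c k) > 0`, `a^4 = |c i|`, `b^4 = |c k|`, `Γ = b / a`.

Every `emb … x` is balanced: `c i (P / a²)² + c k (P / b²)² = P² (c i / |c i| + c k / |c k|) = 0`, the rest
by `hbal`.
`emb_moves`: constant `C = (1 + K₀) (1/a + 1/√a + 1/b)` or similar.  `ji`: jump of `i` by `u / a`
(`P / a² = (u/a)² - P / a²` as `u² = 2 P`), `jk`: jump of `k` by `u / b`, `3 z / b + T / a = (3 z + Γ T) / b`;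
`j2`: both; the sum of the displacements is `|u| / a`, `|u| / b`, `|u| / a + |u| / b`.
`ch`: charge by `t / a`; `(P/a²)² t / a = P² t / a / |c i|`, `(P / b²)² t / a = P² t / a / |c k|`; the blocks of
`D` slide, the others are parked.  `sl`: charge by `t / a`, blocks `i`, `k` slide too
(`-Γ T / 3 / b = -(T / a) / 3`).  `lim`: all coordinates of `emb … x` are continuous in those of `x`.
(`|c j|` and `D j` for `c j = 0` are irrelevant but harmless.)
`emb_sum`: `c i Q / a / |c i| + c k Q / a / |c k| = 0` and the parked blocks contribute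
`(x.T / a - s.T) ∑ c j p j² = 0`.
-/

namespace H80A

open Filter Topology

variable {ι : Type} [Fintype ι]

open Classical in
theorem emb_moves {c : ι → ℝ} {R : NS ι → NS ι → ℝ → Prop} (M : Moves c R) {i k : ι} (hik : i ≠ k)
    (hc : c i * c k < 0) (D : ι → Prop) (s : NS ι)
    (hbal : ∑ j, (if j = i ∨ j = k ∨ D j then 0 else c j * s.p j ^ 2) = 0) :
    ∃ C, 0 ≤ C ∧ PMoves (kap (c k) / kap (c i))
      (fun x x' K => R (emb c i k D s x) (emb c i k D s x') (C * K)) := by
  sorry

open Classical in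
theorem emb_PR {c : ι → ℝ} {R : NS ι → NS ι → ℝ → Prop} (M : Moves c R) {i k : ι} (hik : i ≠ k)
    (hc : c i * c k < 0) (D : ι → Prop) (s : NS ι)
    (hbal : ∑ j, (if j = i ∨ j = k ∨ D j then 0 else c j * s.p j ^ 2) = 0) {x x' : PS} {K : ℝ}
    (h : PR (kap (c k) / kap (c i)) x x' K) :
    ∃ K', R (emb c i k D s x) (emb c i k D s x') K' := by
  obtain ⟨C, -, hC⟩ := emb_moves M hik hc D s hbal
  exact ⟨_, h _ hC⟩

open Classical in
theorem emb_sum {c : ι → ℝ} {i k : ι} (hik : i ≠ k) (hc : c i * c k < 0) (D : ι → Prop) (s : NS ι)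
    (hbal : ∑ j, (if j = i ∨ j = k ∨ D j then 0 else c j * s.p j ^ 2) = 0) (x : PS) :
    ∑ j, c j * (emb c i k D s x).I j = ∑ j, c j * s.I j := by
  sorry

end H80A
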