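import Pool.Agent.Lib.H80A.PD6
import Pool.Agent.Lib.H80A.PD7

/-!
# Chunk PD9: moves of the vertex with all blocks

`hub_slide`: field `charge` with `t = T' - T`, all blocks slide.

`hub_loop`: `emb` with `D j = (j ≠ i ∧ j ≠ k)`, `s = hubN T I`, `a = kap (c i)`, `b = kap (c k)`,
`Γ = b / a ≥ 100`: `emb … (hub Γ (a T) 0)` agrees with `hubN T I`, and `emb … (hub Γ (a T) Q)` with
`hubN T (I + (Q / a) (e_i / |c i| + e_k / |c k|))`; if `c i > 0 > c k` this is
`(Q / a) (e_i / c i - e_k / c k)`, if `c i < 0 < c k` its negative.  Use `loop` and `emb_PR`, with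
`Q = ± a r`.
-/

namespace H80A

open Filter Topology

variable {ι : Type} [Fintype ι] [DecidableEq ι]

theorem hub_slide {c : ι → ℝ} {R : NS ι → NS ι → ℝ → Prop} (M : Moves c R) (T T' : ℝ) (I : ι → ℝ) :
    ∃ K, R (hubN T I) (hubN T' I) K := by
  sorry

theorem hub_loop {c : ι → ℝ} {R : NS ι → NS ι → ℝ → Prop} (M : Moves c R) {i k : ι}
    (hc : c i * c k < 0) (hk : 100 * kap (c i) ≤ kap (c k)) (T : ℝ) (I : ι → ℝ) (r : ℝ) :
    ∃ K, R (hubN T I) (hubN T (I + r • (Pi.single i (c i)⁻¹ - Pi.single k (c k)⁻¹))) K := by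
  sorry

end H80A
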