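import Pool.Agent.Lib.H80A.PD8
import Pool.Agent.Lib.H80A.PD9

/-!
# Chunk PD10: the conclusion

`pd_link j l` := for all `r`, `T`, `I` there is `K` with
`R (hubN T I) (hubN T (I + r • (e_j / c j - e_l / c l))) K`.  It is reflexive, symmetric (`r ↦ -r`) and
transitive.  `hub_loop` gives links `i, k` with `c i c k < 0` and ratio of `kap` at least `100` or at most
`1/100`.  (1) `(A, false)`, `(A, true)` with `w A ≠ 0` are linked: `kap` ratio `√(p_i / p_k) ≥ 100`.
(2) `A < B`, `w A ≠ 0 ≠ w B`: let `A₊, A₋, B₊, B₋` be the indices with `c > 0`, `c < 0`.  The product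
`(kap A₊ / kap B₋) (kap B₊ / kap A₋) = (kap A₊ / kap A₋) (kap B₊ / kap B₋)`, where
`(kap (B, true) / kap (B, false)) ≥ 10^4 (kap (A, true) / kap (A, false))` by `h8` (`10^8` under the root), so
the absolute value of the logarithm of the product is at least `log 10^4` and one of the two factors on the left is
`≥ 100` or `≤ 1/100`: a link between the pairs.  (Formally: four cases for the signs of `w A`, `w B`.)
So all `j, l` with `c j ≠ 0 ≠ c l` are linked.

`hub_all`: if no `c j ≠ 0`, use `cast` and `hub_slide`.  Otherwise fix `l` with `c l ≠ 0`; on the support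
`I' - I = ∑_{j, c j ≠ 0} c j (I' j - I j) (e_j / c j - e_l / c l)` because the `c`-sum vanishes; add the terms one
after the other (`Finset.induction_on`), then `hub_slide`.

`PD_connect`: `allhub` for `s` and `s'`, `hub_all`, `symm`, `trans`.
-/

namespace H80A

open Filter Topology

theorem hub_all {α : Type} [Fintype α] [LinearOrder α] {c : α × Bool → ℝ}
    {R : NS (α × Bool) → NS (α × Bool) → ℝ → Prop} (M : Moves c R) (w : α → ℝ)
    (p : α × Bool → ℝ) (hp : ∀ j, 0 < p j) (hc0 : ∀ A, c (A, false) = w A / p (A, false) ^ 2)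
    (hc1 : ∀ A, c (A, true) = -(w A / p (A, true) ^ 2))
    (h4 : ∀ A, 10 ^ 4 * p (A, true) ≤ p (A, false))
    (h8 : ∀ A B, A < B → 10 ^ 8 * (p (A, false) * p (B, true)) ≤ p (B, false) * p (A, true))
    (T T' : ℝ) (I I' : α × Bool → ℝ) (hE : ∑ j, c j * (I' j - I j) = 0) :
    ∃ K, R (hubN T I) (hubN T' I') K := by
  sorry

/-- The only output of part PD. -/
theorem PD_connect {α : Type} [Fintype α] [LinearOrder α] {c : α × Bool → ℝ}
    {R : NS (α × Bool) → NS (α × Bool) → ℝ → Prop} (M : Moves c R) (w : α → ℝ)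
    (p : α × Bool → ℝ) (hp : ∀ j, 0 < p j) (hc0 : ∀ A, c (A, false) = w A / p (A, false) ^ 2)
    (hc1 : ∀ A, c (A, true) = -(w A / p (A, true) ^ 2))
    (h4 : ∀ A, 10 ^ 4 * p (A, true) ≤ p (A, false))
    (h8 : ∀ A B, A < B → 10 ^ 8 * (p (A, false) * p (B, true)) ≤ p (B, false) * p (A, true))
    (s s' : NS (α × Bool)) (hs : ∀ j, c j ≠ 0 → s.p j = p j) (hs' : ∀ j, c j ≠ 0 → s'.p j = p j)
    (hE : ∑ j, c j * (s'.I j - s.I j) = 0) : ∃ K, R s s' K := by
  obtain ⟨T, I, K, h1, h2⟩ := allhub M w p hp hc0 hc1 h4 s hs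
  obtain ⟨T', I', K', h1', h2'⟩ := allhub M w p hp hc0 hc1 h4 s' hs'
  obtain ⟨K'', h3⟩ := hub_all M w p hp hc0 hc1 h4 h8 T T' I I' (by
    have e1 : ∑ j, c j * (I' j - I j) = ∑ j, c j * I' j - ∑ j, c j * I j := by
      rw [← Finset.sum_sub_distrib]
      exact Finset.sum_congr rfl fun j _ => by ring
    have e2 : ∑ j, c j * (s'.I j - s.I j) = ∑ j, c j * s'.I j - ∑ j, c j * s.I j := by
      rw [← Finset.sum_sub_distrib]
      exact Finset.sum_congr rfl fun j _ => by ring
    rw [e1, h2, h2', ← e2, hE])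
  exact ⟨_, M.trans _ _ _ _ _ h1 (M.trans _ _ _ _ _ h3 (M.symm _ _ _ h1'))⟩

end H80A
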