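import Pool.Agent.Lib.H80A.PD1

/-!
# Chunk PD2: the 1-switches

Put `ρ = √(2 P)`, `q = √P`, `h = qn Γ P = 3 ρ / (Γ - 1)`, `σ = sg Γ y z`, `T* = Ts Γ y z`.  Identities:
`3 y + T* = -σ`, `3 z + Γ T* = -σ`.

One switch of the second block with sign `e = ±1`: from `rdy Γ y z P Q` charge by
`t₁ = (σ - (3/2) e ρ) / Γ` (so that `3 z + Γ (T* + t₁) = -(3/2) e ρ`), jump `jk` with `u = e ρ`
(`u² = 2 P`, `u² - (3/2) u² + P = 0`), charge by `t₂ = -e h - t₁`; the new state is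
`rdy Γ y (z + e ρ) P (Q - P² e h)`.  If `|σ| ≤ 5 q` and `Γ ≥ 100` then `|t₁| ≤ 0.072 q`,
`|t₂| ≤ 0.115 q`, `ρ ≤ 1.4143 q`, so the cost is at most `2 (√q + q)`.

`kshift`: `n` such switches, induction on `n`; the intermediate values `σ + e m h`, `m ≤ n`, lie between
`σ` and `σ + e n h`, hence in `[-5 q, 5 q]`.
`kshift_any`: the same without bound of the cost, `n : ℤ`.
`ishift_any`: one switch of the first block: charge by `t₁ = σ - (3/2) e ρ`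
(so that `3 y + T* + t₁ = -(3/2) e ρ`), jump `ji` with `u = e ρ`, charge by `t₂ = e h - t₁`.
-/

namespace H80A

open Filter Topology

theorem Ts_y {Γ : ℝ} (hΓ : 100 ≤ Γ) (y z : ℝ) : 3 * y + Ts Γ y z = -sg Γ y z := by
  sorry

theorem Ts_z {Γ : ℝ} (hΓ : 100 ≤ Γ) (y z : ℝ) : 3 * z + Γ * Ts Γ y z = -sg Γ y z := by
  sorry

theorem sg_z (Γ y z a P : ℝ) : sg Γ y (z + a * √(2 * P)) = sg Γ y z + a * qn Γ P := by
  sorry

theorem sg_y (Γ y z a P : ℝ) : sg Γ (y + a * √(2 * P)) z = sg Γ y z - Γ * (a * qn Γ P) := by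
  sorry

theorem Ts_z' (Γ y z a P : ℝ) : Ts Γ y (z + a * √(2 * P)) = Ts Γ y z - a * qn Γ P := by
  sorry

theorem Ts_y' (Γ y z a P : ℝ) : Ts Γ (y + a * √(2 * P)) z = Ts Γ y z + a * qn Γ P := by
  sorry

theorem kshift {Γ P y z Q : ℝ} (hΓ : 100 ≤ Γ) (hP : 0 ≤ P) (e : ℝ) (he : e = 1 ∨ e = -1) (n : ℕ)
    (h1 : |sg Γ y z| ≤ 5 * √P) (h2 : |sg Γ y z + e * n * qn Γ P| ≤ 5 * √P) :
    PR Γ (rdy Γ y z P Q) (rdy Γ y (z + e * n * √(2 * P)) P (Q - P ^ 2 * (e * n * qn Γ P)))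
      (n * (2 * (√(√P) + √P))) := by
  sorry

theorem kshift_any {Γ P : ℝ} (hΓ : 100 ≤ Γ) (hP : 0 ≤ P) (y z Q : ℝ) (n : ℤ) :
    ∃ K, PR Γ (rdy Γ y z P Q) (rdy Γ y (z + n * √(2 * P)) P (Q - P ^ 2 * (n * qn Γ P))) K := by
  sorry

theorem ishift_any {Γ P : ℝ} (hΓ : 100 ≤ Γ) (hP : 0 ≤ P) (y z Q : ℝ) (n : ℤ) :
    ∃ K, PR Γ (rdy Γ y z P Q) (rdy Γ (y + n * √(2 * P)) z P (Q + P ^ 2 * (n * qn Γ P))) K := by
  sorry

end H80A
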