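import Pool.Agent.Lib.H80A.PD1

/-!
# Chunk PD3: the 2-switch

Put `q = √P`, `σ = sg Γ y z ∈ [2.01 q, 2.06 q]`, `u = (σ + √(σ² - 4 P)) / 2`, so `u² - σ u + P = 0`,
`u ≥ σ / 2 > q` and (monotonicity in `σ / q`) `1.1 q ≤ u ≤ 1.28 q`: with `v = u / q`, `v + 1/v = σ / q`,
`v + 1/v ≥ 2.01` and `v ≥ 1` give `v ≥ 1.1` (as `1.1 + 1/1.1 = 2.00909...`), and `v + 1/v ≤ 2.06` gives
`v ≤ 1.28` (as `1.28 + 1/1.28 = 2.06125`).  Hence `0.21 P ≤ u² - P ≤ 0.64 P`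
(`1.28² = 1.6384`), `sg Γ (y+u) (z+u) = σ - 3 u ∈ [-1.83 q, -1.24 q]`, and
`5 √(u² - P) ≥ 5 · 0.458 q = 2.29 q`.
At `rdy` the time is `Ts`, with `3 y + Ts = 3 z + Γ Ts = -σ`; `Ts Γ (y+u) (z+u) = Ts Γ y z`; so `j2`
applies.
-/

namespace H80A

open Filter Topology

theorem two_switch {Γ P y z : ℝ} (hΓ : 100 ≤ Γ) (hP : 0 < P) (h1 : 2.01 * √P ≤ sg Γ y z)
    (h2 : sg Γ y z ≤ 2.06 * √P) (Q : ℝ) :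
    ∃ u, 0 ≤ u ∧ u ≤ 1.28 * √P ∧ 0 < u ^ 2 - P ∧ u ^ 2 - P ≤ 0.64 * P ∧
      |sg Γ (y + u) (z + u)| ≤ 5 * √(u ^ 2 - P) ∧ Ts Γ (y + u) (z + u) = Ts Γ y z ∧
      PR Γ (rdy Γ y z P Q) (rdy Γ (y + u) (z + u) (u ^ 2 - P) Q) u := by
  sorry

end H80A
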