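import Pool.Agent.Lib.H80A.PD2
import Pool.Agent.Lib.H80A.PD3

/-!
# Chunk PD4: one stage of the funnel

`q = √P`, `σ = sg Γ y z`, `h = qn Γ P = 3 √2 q / (Γ - 1)`, so `0 < h ≤ 0.043 q`.  Let
`m = ⌈(2.01 q - σ) / h⌉ ∈ ℤ`; then `2.01 q ≤ σ + m h < 2.01 q + h ≤ 2.06 q` and
`|m| h ≤ 7.01 q + h ≤ 7.06 q`, `|m| ≤ 7.06 (Γ - 1) / (3 √2) ≤ 1.67 Γ`.  Apply `kshift` with
`n = m.natAbs` and `e` = sign of `m`, then `two_switch`.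
`|z' - z| ≤ |m| √2 q + 1.28 q ≤ 3 Γ q`, cost at most `1.67 Γ · 2 (√q + q) + 1.28 q ≤ 5 Γ (√q + q)`.
-/

namespace H80A

open Filter Topology

theorem stage {Γ P y z : ℝ} (hΓ : 100 ≤ Γ) (hP : 0 < P) (h : |sg Γ y z| ≤ 5 * √P) (Q : ℝ) :
    ∃ y' z' P' Q', 0 < P' ∧ P' ≤ 0.64 * P ∧ |sg Γ y' z'| ≤ 5 * √P' ∧ |y' - y| ≤ 2 * √P ∧
      |z' - z| ≤ 3 * Γ * √P ∧ |Ts Γ y' z' - Ts Γ y z| ≤ 8 * √P ∧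
      |Q' - Q| ≤ 8 * (P ^ 2 * √P) ∧
      PR Γ (rdy Γ y z P Q) (rdy Γ y' z' P' Q') (5 * Γ * (√(√P) + √P)) := by
  sorry

end H80A
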