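import Pool.Agent.Lib.H80A.PD4

/-!
# Chunk PD5: the funnel

`funnel_rdy`: iterate `stage`: sequences `y n, z n, P n > 0, Q n` with `P (n+1) ≤ 0.64 P n`, so
`√(P n) ≤ 0.8^n √P`, `√√(P n) ≤ (√0.8)^n √√P` and `P n ^ 2 √(P n) ≤ (0.8^5)^n P² √P`, `0.8^5 = 0.32768`,
`8 / (1 - 0.32768) < 12`.  All four coordinates and `Ts` are Cauchy (`cauchySeq_of_le_geometric` or
summable increments), `P n → 0`, `sg → 0`, so with `T' = lim Ts`: `3 y' + T' = 0`, `3 z' + Γ T' = 0`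
(`Ts_y`, `Ts_z`).  Conclude with the field `lim` of `pr_moves Γ` and `K n = 5 Γ (√√(P n) + √(P n))`
(summable), using `|Q' - Q| ≤ ∑ 8 P n ^ 2 √(P n)` (`dist_le_of_le_geometric_of_tendsto₀` or `tsum` bounds).

`funnel`: from `x` charge to the time `Ts Γ x.y x.z` (field `ch`), then `kshift_any` with
`n = ⌈-sg / h⌉`, `h = qn Γ P > 0`, so that `0 ≤ sg < h ≤ 5 √P`, then `funnel_rdy`.
-/

namespace H80A

open Filter Topology

theorem funnel_rdy {Γ P y z : ℝ} (hΓ : 100 ≤ Γ) (hP : 0 < P) (h : |sg Γ y z| ≤ 5 * √P) (Q : ℝ) :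
    ∃ T' Q' K, |Q' - Q| ≤ 12 * (P ^ 2 * √P) ∧ PR Γ (rdy Γ y z P Q) (hub Γ T' Q') K := by
  sorry

theorem funnel {Γ : ℝ} (hΓ : 100 ≤ Γ) (x : PS) (hP : 0 < x.P) :
    ∃ T' Q' K, PR Γ x (hub Γ T' Q') K := by
  sorry

end H80A
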