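import Pool.Agent.Lib.H80A.PD5

/-!
# Chunk PD6: loops at the vertex

`hub_sl`: field `sl` with `t = T' - T`.

`loop1`: with `P = 1`, `h = qn Γ 1 = 3 √2 / (Γ - 1)`: start at `N₀ = rdy Γ 0 0 1 0` (`sg = 0`), apply
`ishift_any` with `8` and `kshift_any` with `n = ⌈8 Γ⌉`: the end `N₁ = rdy Γ (8 √2) (n √2) 1 Q₁`,
`Q₁ = (8 - n) h ≤ 8 (1 - Γ) h = -24 √2 < -33`, `sg = (n - 8 Γ) h ∈ [0, h] ⊂ [0, 5]`.  Funnels from `N₀`,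
`N₁` (`funnel_rdy`): `|Q'₀| ≤ 12`, `|Q'₁ - Q₁| ≤ 12`, so `Q'₁ < Q'₀`.

`loop`: if `Q = Q'`: `hub_sl`.  Otherwise let `l = (|Q' - Q| / (Q'₀ - Q'₁))^(1/5) > 0` and apply `pr_scale`
to `loop1` (reversed by `symm` if needed) with a suitable translation of `Q`
(`(hub Γ T Q).sc l q = hub Γ (l T) (l^5 Q + q)`), and `hub_sl` at both ends.
-/

namespace H80A

open Filter Topology

theorem hub_sl {Γ : ℝ} (T T' Q : ℝ) : ∃ K, PR Γ (hub Γ T Q) (hub Γ T' Q) K := by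
  sorry

theorem hub_sc (Γ T Q l q : ℝ) : (hub Γ T Q).sc l q = hub Γ (l * T) (l ^ 5 * Q + q) := by
  sorry

theorem loop1 {Γ : ℝ} (hΓ : 100 ≤ Γ) :
    ∃ T Q T' Q' K, Q' < Q ∧ PR Γ (hub Γ T Q) (hub Γ T' Q') K := by
  sorry

theorem loop {Γ : ℝ} (hΓ : 100 ≤ Γ) (T Q T' Q' : ℝ) :
    ∃ K, PR Γ (hub Γ T Q) (hub Γ T' Q') K := by
  sorry

end H80A
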