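import Pool.Agent.Lib.H80A.PD6
import Pool.Agent.Lib.H80A.PD7

/-!
# Chunk PD8: all pairs to the vertex

Claim by `Finset.induction_on` over `S : Finset α`: there is a node `s'` with `∃ K, R s s' K`,
`∑ c I' = ∑ c I`, and for `c j ≠ 0`: if `j.1 ∈ S` then `s'.p j = 0`, `s'.al j = -s'.T / 3`, if `j.1 ∉ S` then
`s'.p j = p j`.  `S = ∅`: `s' = s` (field `cast`).  Step `A ∉ S`: if `w A = 0` nothing to do (`c (A, _) = 0`).
If `w A ≠ 0` put `i = (A, false)`, `k = (A, true)`, `D j = (j.1 ∈ S)`, `a = kap (c i)`, `b = kap (c k)`: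
`|c i| p_i² = |c k| p_k² = |w A|`, so `a² p_i = b² p_k = √|w A| =: P > 0` and
`Γ = b / a = √(p_i / p_k) ≥ 100`.  The state `x = ⟨a al_i, b al_k, P, a T, 0⟩` satisfies
`emb c i k D s' x = s'` on the support (`cast`).  `hbal`: the other pairs not in `S` are balanced:
`c (B,false) p² + c (B,true) p² = w B - w B` (`Fintype.sum_prod_type`), those in `S` are in `D`.
`funnel` and `emb_PR` give a node `emb … (hub Γ T' Q')` with
`al_i = -T'/3/a = -T_new/3`, `al_k = -(b/a) T'/3/b`, `p_i = p_k = 0`; `emb_sum` gives the sum.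
At the end (`S = univ`) use `cast` to pass to `hubN T I`.
-/

namespace H80A

open Filter Topology

theorem allhub {α : Type} [Fintype α] [DecidableEq α] {c : α × Bool → ℝ}
    {R : NS (α × Bool) → NS (α × Bool) → ℝ → Prop} (M : Moves c R) (w : α → ℝ)
    (p : α × Bool → ℝ) (hp : ∀ j, 0 < p j) (hc0 : ∀ A, c (A, false) = w A / p (A, false) ^ 2)
    (hc1 : ∀ A, c (A, true) = -(w A / p (A, true) ^ 2))
    (h4 : ∀ A, 10 ^ 4 * p (A, true) ≤ p (A, false)) (s : NS (α × Bool))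
    (hs : ∀ j, c j ≠ 0 → s.p j = p j) :
    ∃ T I K, R s (hubN T I) K ∧ ∑ j, c j * I j = ∑ j, c j * s.I j := by
  sorry

end H80A
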