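import Mathlib

/-!
# H80A, part PD: abstract dynamics of nodes and pairs (PROOF.md, sections 5 and 6)

Real numbers only, independent of the group.

* `NS ι`: the data of a node (positions `al j`, time `T`, derivatives `p j`, invariants `I j`).
* `Moves c R`: the moves which the group provides; `R s s' K` means that the node `s` is joined to the
  node `s'` by an admissible curve of length at most `K`.  Indices with `c j = 0` play no role.
* `PS`, `PMoves`: the same for one normalised pair (positions `y`, `z`, common derivative `P`, time `T`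
  of the first block, time `Γ T` of the second block, integral `Q` of `P² dT`).
* `PR Γ`: the smallest relation with `PMoves Γ` (it is invariant under scaling).
* `hub Γ T Q`: the vertex `P = 0`; `rdy Γ y z P Q`: the node at which the two blocks have equal `S`,
  namely `sg Γ y z`.
-/

namespace H80A

open Filter Topology

noncomputable section

/-- The data of a node. -/
structure NS (ι : Type) where
  al : ι → ℝ
  T : ℝ
  p : ι → ℝ
  I : ι → ℝ

/-- Balanced node. -/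
def Bal {ι : Type} [Fintype ι] (c : ι → ℝ) (s : NS ι) : Prop := ∑ j, c j * s.p j ^ 2 = 0

/-- The moves between nodes. -/
structure Moves {ι : Type} [Fintype ι] (c : ι → ℝ) (R : NS ι → NS ι → ℝ → Prop) : Prop where
  cast : ∀ s s' : NS ι, Bal c s → s'.T = s.T →
    (∀ j, c j ≠ 0 → s'.al j = s.al j ∧ s'.p j = s.p j ∧ s'.I j = s.I j) → R s s' 0
  symm : ∀ s s' K, R s s' K → R s' s K
  trans : ∀ s s' s'' K K', R s s' K → R s' s'' K' → R s s'' (K + K')
  mono : ∀ s s' K K', R s s' K → K ≤ K' → R s s' K'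
  jump : ∀ s s' : NS ι, Bal c s → Bal c s' → s'.T = s.T → (∀ j, c j ≠ 0 → s'.I j = s.I j) →
    (∀ j, c j ≠ 0 → (s'.al j = s.al j ∧ s'.p j = s.p j) ∨
      ∃ u, u ^ 2 + (3 * s.al j + s.T) * u + s.p j = 0 ∧ s'.al j = s.al j + u ∧
        s'.p j = u ^ 2 - s.p j) →
    R s s' (∑ j, |s'.al j - s.al j|)
  charge : ∃ K₀, 0 ≤ K₀ ∧ ∀ (s s' : NS ι) (t : ℝ), Bal c s → s'.T = s.T + t →
    (∀ j, c j ≠ 0 → s'.p j = s.p j ∧ s'.I j = s.I j + s.p j ^ 2 * t ∧
      (s'.al j = s.al j ∨ (s.p j = 0 ∧ s.al j = -s.T / 3 ∧ s'.al j = s.al j - t / 3))) →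
    R s s' (K₀ * (√|t| + |t|))
  lim : ∀ (s : ℕ → NS ι) (s' : NS ι) (K : ℕ → ℝ), (∀ n, R (s n) (s (n + 1)) (K n)) → Summable K →
    Tendsto (fun n => (s n).T) atTop (𝓝 s'.T) →
    (∀ j, c j ≠ 0 → Tendsto (fun n => (s n).al j) atTop (𝓝 (s'.al j))) →
    (∀ j, c j ≠ 0 → Tendsto (fun n => (s n).p j) atTop (𝓝 (s'.p j))) →
    (∀ j, c j ≠ 0 → Tendsto (fun n => (s n).I j) atTop (𝓝 (s'.I j))) →
    R (s 0) s' (∑' n, K n)

/-- The normalised state of a pair. -/
structure PS where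
  y : ℝ
  z : ℝ
  P : ℝ
  T : ℝ
  Q : ℝ

/-- The moves of a pair. -/
structure PMoves (Γ : ℝ) (r : PS → PS → ℝ → Prop) : Prop where
  refl : ∀ x, r x x 0
  symm : ∀ x x' K, r x x' K → r x' x K
  trans : ∀ x x' x'' K K', r x x' K → r x' x'' K' → r x x'' (K + K')
  mono : ∀ x x' K K', r x x' K → K ≤ K' → r x x' K'
  ji : ∀ (x : PS) (u : ℝ), u ^ 2 = 2 * x.P → u ^ 2 + (3 * x.y + x.T) * u + x.P = 0 →
    r x ⟨x.y + u, x.z, x.P, x.T, x.Q⟩ |u|
  jk : ∀ (x : PS) (u : ℝ), u ^ 2 = 2 * x.P → u ^ 2 + (3 * x.z + Γ * x.T) * u + x.P = 0 →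
    r x ⟨x.y, x.z + u, x.P, x.T, x.Q⟩ |u|
  j2 : ∀ (x : PS) (u : ℝ), u ^ 2 + (3 * x.y + x.T) * u + x.P = 0 →
    u ^ 2 + (3 * x.z + Γ * x.T) * u + x.P = 0 →
    r x ⟨x.y + u, x.z + u, u ^ 2 - x.P, x.T, x.Q⟩ |u|
  ch : ∀ (x : PS) (t : ℝ), r x ⟨x.y, x.z, x.P, x.T + t, x.Q + x.P ^ 2 * t⟩ (√|t| + |t|)
  sl : ∀ (x : PS) (t : ℝ), x.P = 0 → x.y = -x.T / 3 → x.z = -Γ * x.T / 3 →
    r x ⟨x.y - t / 3, x.z - Γ * t / 3, x.P, x.T + t, x.Q⟩ (√|t| + |t|)
  lim : ∀ (x : ℕ → PS) (x' : PS) (K : ℕ → ℝ), (∀ n, r (x n) (x (n + 1)) (K n)) → Summable K →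
    Tendsto (fun n => (x n).y) atTop (𝓝 x'.y) → Tendsto (fun n => (x n).z) atTop (𝓝 x'.z) →
    Tendsto (fun n => (x n).P) atTop (𝓝 x'.P) → Tendsto (fun n => (x n).T) atTop (𝓝 x'.T) →
    Tendsto (fun n => (x n).Q) atTop (𝓝 x'.Q) → r (x 0) x' (∑' n, K n)

/-- The smallest relation with the moves of a pair. -/
def PR (Γ : ℝ) (x x' : PS) (K : ℝ) : Prop := ∀ r, PMoves Γ r → r x x' K

/-- Scaling and translation of `Q`. -/
def PS.sc (l q : ℝ) (x : PS) : PS := ⟨l * x.y, l * x.z, l ^ 2 * x.P, l * x.T, l ^ 5 * x.Q + q⟩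

/-- The vertex. -/
def hub (Γ T Q : ℝ) : PS := ⟨-T / 3, -Γ * T / 3, 0, T, Q⟩

/-- The time at which the two blocks have equal `S`. -/
def Ts (Γ y z : ℝ) : ℝ := 3 * (y - z) / (Γ - 1)

/-- The common value of `S` at that time. -/
def sg (Γ y z : ℝ) : ℝ := 3 * (z - Γ * y) / (Γ - 1)

/-- The ready node. -/
def rdy (Γ y z P Q : ℝ) : PS := ⟨y, z, P, Ts Γ y z, Q⟩

/-- The quantum by which a 1-switch of the second block changes `sg`. -/
def qn (Γ P : ℝ) : ℝ := 3 * √(2 * P) / (Γ - 1)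

/-- `|c|^(1/4)` -/
def kap (c : ℝ) : ℝ := √(√|c|)

/-- The vertex with all blocks, time `T` and invariants `I`. -/
def hubN {ι : Type} (T : ℝ) (I : ι → ℝ) : NS ι := ⟨fun _ => -T / 3, T, fun _ => 0, I⟩

open Classical in
/-- The node in which the pair `i, k` has the normalised state `x`, the blocks `j` with `D j` slide, the
other blocks are parked as in `s`. -/
def emb {ι : Type} (c : ι → ℝ) (i k : ι) (D : ι → Prop) (s : NS ι) (x : PS) : NS ι where
  al j := if j = i then x.y / kap (c i) else if j = k then x.z / kap (c k) else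
    if D j then -(x.T / kap (c i)) / 3 else s.al j
  T := x.T / kap (c i)
  p j := if j = i then x.P / kap (c i) ^ 2 else if j = k then x.P / kap (c k) ^ 2 else
    if D j then 0 else s.p j
  I j := if j = i then s.I i + x.Q / kap (c i) / |c i| else
    if j = k then s.I k + x.Q / kap (c i) / |c k| else
    if D j then s.I j else s.I j + s.p j ^ 2 * (x.T / kap (c i) - s.T)

end

end H80A
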