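import Pool.Agent.Lib.H80A.PGDefs

/-!
# Chunk PG1: the Picard iteration stops; first properties of `gam`

`pic_stab`: induction on `n` (for all `k`, `t`): `pic (n+2) t k` and `pic (n+1) t k` are integrals of
the same expression, because `MvPolynomial.eval` of `fld k j` depends only on the variables in `vars`
(`MvPolynomial.eval₂Hom_congr'` / `MvPolynomial.hom_congr_vars`), all of rank `< rk k`, where the two
iterates agree by induction.  `gam_eq`: `rk k < sup rk + 1`.
The congruence and scaling statements: prove them for `pic n` by induction on `n`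
(compare `Lib/SRSard/TrajA.lean`: `ta_icongr`, `gam_congr`, `gam_scale`).
-/

namespace H80A

open MeasureTheory Set Filter Topology

variable {ι : Type} [Fintype ι] {m : ℕ} (S : PG ι m)

theorem eval_congr (k : ι) (j : Fin m) {g g' : S.Car} (h : ∀ i, S.rk i < S.rk k → g i = g' i) :
    MvPolynomial.eval g (S.fld k j) = MvPolynomial.eval g' (S.fld k j) := by
  refine MvPolynomial.eval₂Hom_congr' rfl ?_ rfl
  intro i hi _
  exact h i (S.tri k j i hi)

theorem pic_stab (w : ℝ → Fin m → ℝ) : ∀ (n : ℕ) (k : ι) (t : ℝ), S.rk k < n →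
    S.pic w n t k = S.pic w (n + 1) t k := by
  intro n
  induction n with
  | zero => intro k t h; exact absurd h (Nat.not_lt_zero _)
  | succ n ih =>
    intro k t h
    change (∫ s in (0:ℝ)..t, ∑ j, w s j * MvPolynomial.eval (S.pic w n s) (S.fld k j)) =
      ∫ s in (0:ℝ)..t, ∑ j, w s j * MvPolynomial.eval (S.pic w (n + 1) s) (S.fld k j)
    congr 1
    funext s
    refine Finset.sum_congr rfl fun j _ => ?_
    rw [eval_congr S k j (fun i hi => ih i s (by omega))]

/-- the integral equation of the curve -/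
theorem gam_eq (w : ℝ → Fin m → ℝ) (k : ι) (t : ℝ) :
    S.gam w t k = ∫ s in (0:ℝ)..t, ∑ j, w s j * MvPolynomial.eval (S.gam w s) (S.fld k j) := by
  have h : S.rk k < Finset.univ.sup S.rk + 1 :=
    Nat.lt_succ_of_le (Finset.le_sup (f := S.rk) (Finset.mem_univ k))
  exact pic_stab S w _ k t h

theorem gam_zero (w : ℝ → Fin m → ℝ) : S.gam w 0 = 1 := by
  funext k
  rw [gam_eq, intervalIntegral.integral_same]
  rfl

theorem gam_zero_ctrl (t : ℝ) : S.gam (fun _ => 0) t = 1 := by
  funext k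
  rw [gam_eq]
  simp only [Pi.zero_apply, zero_mul, Finset.sum_const_zero, intervalIntegral.integral_zero]
  rfl

theorem PG1_pic_congr {w w' : ℝ → Fin m → ℝ} {t : ℝ}
    (h : ∀ᵐ s ∂volume, s ∈ Ioc (0:ℝ) t → w s = w' s) (n : ℕ) :
    ∀ r ∈ Icc (0:ℝ) t, S.pic w n r = S.pic w' n r := by
  induction n with
  | zero => intro r _; rfl
  | succ n ih =>
    intro r hr
    funext k
    change (∫ s in (0:ℝ)..r, ∑ j, w s j * MvPolynomial.eval (S.pic w n s) (S.fld k j)) =
      ∫ s in (0:ℝ)..r, ∑ j, w' s j * MvPolynomial.eval (S.pic w' n s) (S.fld k j)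
    apply intervalIntegral.integral_congr_ae
    filter_upwards [h] with s hs hs'
    rw [uIoc_of_le hr.1] at hs'
    rw [hs ⟨hs'.1, hs'.2.trans hr.2⟩, ih s ⟨hs'.1.le, hs'.2.trans hr.2⟩]

theorem gam_congr_ae {w w' : ℝ → Fin m → ℝ} {t : ℝ} (ht : 0 ≤ t)
    (h : ∀ᵐ s ∂volume, s ∈ Ioc (0:ℝ) t → w s = w' s) : S.gam w t = S.gam w' t :=
  PG1_pic_congr S h _ t ⟨ht, le_rfl⟩

theorem gam_congr {w w' : ℝ → Fin m → ℝ} {t : ℝ} (ht : 0 ≤ t)
    (h : ∀ s ∈ Ioc (0:ℝ) t, w s = w' s) : S.gam w t = S.gam w' t :=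
  gam_congr_ae S ht (Eventually.of_forall h)

theorem PG1_pic_scale (w : ℝ → Fin m → ℝ) (c : ℝ) (n : ℕ) : ∀ t : ℝ,
    S.pic (fun s => c • w (c * s)) n t = S.pic w n (c * t) := by
  induction n with
  | zero => intro t; rfl
  | succ n ih =>
    intro t
    funext k
    change (∫ s in (0:ℝ)..t, ∑ j, (c • w (c * s)) j *
        MvPolynomial.eval (S.pic (fun s => c • w (c * s)) n s) (S.fld k j)) =
      ∫ s in (0:ℝ)..(c * t), ∑ j, w s j * MvPolynomial.eval (S.pic w n s) (S.fld k j)
    have h := intervalIntegral.mul_integral_comp_mul_left (a := 0) (b := t)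
      (f := fun s => ∑ j, w s j * MvPolynomial.eval (S.pic w n s) (S.fld k j)) c
    rw [mul_zero] at h
    rw [← h, ← intervalIntegral.integral_const_mul]
    congr 1
    funext s
    rw [Finset.mul_sum]
    refine Finset.sum_congr rfl fun j _ => ?_
    rw [ih s, Pi.smul_apply, smul_eq_mul, mul_assoc]

theorem gam_scale (w : ℝ → Fin m → ℝ) {c : ℝ} (hc : c ≠ 0) (t : ℝ) :
    S.gam (fun s => c • w (c * s)) t = S.gam w (c * t) :=
  PG1_pic_scale S w c _ t

theorem gam_scale_zero (w : ℝ → Fin m → ℝ) (t : ℝ) :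
    S.gam (fun s => (0:ℝ) • w (0 * s)) t = S.gam w 0 := by
  have h := PG1_pic_scale S w 0 ((Finset.univ.sup S.rk) + 1) t
  rw [zero_mul] at h
  exact h

/-- uniqueness: a function which satisfies the integral equation on `[0, L]` is `gam` there -/
theorem gam_unique (w : ℝ → Fin m → ℝ) {L : ℝ} (η : ℝ → S.Car)
    (h : ∀ t ∈ Icc (0:ℝ) L, ∀ k, η t k =
      ∫ s in (0:ℝ)..t, ∑ j, w s j * MvPolynomial.eval (η s) (S.fld k j)) :
    ∀ t ∈ Icc (0:ℝ) L, η t = S.gam w t := by
  have key : ∀ n : ℕ, ∀ k, S.rk k < n → ∀ t ∈ Icc (0:ℝ) L, η t k = S.gam w t k := by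
    intro n
    induction n with
    | zero => intro k hk; exact absurd hk (Nat.not_lt_zero _)
    | succ n ih =>
      intro k hk t ht
      rw [h t ht k, gam_eq]
      apply intervalIntegral.integral_congr_ae
      refine Eventually.of_forall fun s hs => ?_
      rw [uIoc_of_le ht.1] at hs
      refine Finset.sum_congr rfl fun j _ => ?_
      rw [eval_congr S k j (fun i hi => ih i (by omega) s ⟨hs.1.le, hs.2.trans ht.2⟩)]
  intro t ht
  funext k
  exact key _ k (Nat.lt_succ_self _) t ht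

end H80A
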