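import Pool.Agent.Lib.H80A.PG1

/-!
# Chunk PG7: bounded measurable controls are `L²` controls (generalises `Lib/SRSard/LC.lean`)
-/

namespace H80A

open MeasureTheory Set Filter Topology

variable {ι : Type} [Fintype ι] {m : ℕ} (S : PG ι m)

/-- a control as a function with values in the Euclidean space -/
noncomputable def pg7_F (v : ℝ → Fin m → ℝ) (s : ℝ) : EuclideanSpace ℝ (Fin m) :=
  (PiLp.continuousLinearEquiv 2 ℝ (fun _ : Fin m => ℝ)).symm (v s)

theorem pg7_memLp {v : ℝ → Fin m → ℝ} (hv : Measurable v) {C : ℝ} (hC : ∀ s, ‖v s‖ ≤ C) :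
    MemLp (pg7_F v) 2 mu01 := by
  set A := (PiLp.continuousLinearEquiv 2 ℝ (fun _ : Fin m => ℝ)).symm with hA
  refine MemLp.of_bound (C := ‖(A : (Fin m → ℝ) →L[ℝ] EuclideanSpace ℝ (Fin m))‖ * C) ?_ ?_
  · exact (A.continuous.measurable.comp hv).aestronglyMeasurable
  · refine Eventually.of_forall fun s => ?_
    refine ((A : (Fin m → ℝ) →L[ℝ] EuclideanSpace ℝ (Fin m)).le_opNorm _).trans ?_
    exact mul_le_mul_of_nonneg_left (hC s) (norm_nonneg _)

/-- every bounded measurable control restricted to `[0, L]` and rescaled to `[0,1]` is an element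
of `L2` -/
theorem exists_L2_of_ctrl {w : ℝ → Fin m → ℝ} (hw : Ctrl w) {L : ℝ} (hL : 0 ≤ L) :
    ∃ W : L2 m, ∀ t ∈ Icc (0:ℝ) 1, S.gam (ctl W) t = S.gam w (L * t) := by
  set v : ℝ → Fin m → ℝ := fun s => L • w (L * s) with hv
  have hvm : Measurable v := by
    have : Measurable (fun s : ℝ => w (L * s)) := hw.meas.comp (measurable_const_mul L)
    exact this.const_smul L
  have hvb : ∀ s, ‖v s‖ ≤ L := by
    intro s
    rw [hv]
    simp only
    rw [norm_smul, Real.norm_of_nonneg hL]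
    calc L * ‖w (L * s)‖ ≤ L * 1 := mul_le_mul_of_nonneg_left (hw.bound _) hL
      _ = L := mul_one L
  have hM := pg7_memLp hvm hvb
  refine ⟨hM.toLp, fun t ht => ?_⟩
  have hae : ∀ᵐ s ∂mu01, (hM.toLp : L2 m) s = pg7_F v s := hM.coeFn_toLp
  have h1 : S.gam (ctl hM.toLp) t = S.gam v t := by
    refine gam_congr_ae S ht.1 ?_
    have h2 := (ae_restrict_iff' measurableSet_Icc).1 hae
    filter_upwards [h2] with s hs hs1
    have h3 := hs ⟨hs1.1.le, hs1.2.trans ht.2⟩
    funext j
    show (hM.toLp : L2 m) s j = v s j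
    rw [h3]
    rfl
  rw [h1]
  rcases hL.eq_or_lt with h0 | h0
  · rw [hv, ← h0, zero_mul]
    exact gam_scale_zero S w t
  · have h2 := gam_scale S w (c := L) h0.ne' t
    exact h2

end H80A
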