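import Pool.Agent.Lib.H80A.PG1

/-!
# Chunk PG5: the endpoint map is smooth (generalises `Lib/SRSard/LA.lean`)

As in `LA.lean`: `la_B : L²(ℝ) →L C([0,1]) →L C([0,1])`, `(f, φ) ↦ ∫_0^· f φ`, is a continuous bilinear
map.  Define `GR : ℕ → L2 m → ι → C([0,1], ℝ)` by `GR 0 w k = 0`,
`GR (n+1) w k = ∑ j, la_B (co j w) (MvPolynomial.aeval (GR n w) (fld k j))`.  `ContDiff` by induction on
`n` (`aeval` is a polynomial in its arguments: `MvPolynomial.induction_on`), and
`pic (ctl w) n t k = GR n w k t` for `t ∈ [0,1]`.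
-/

namespace H80A

open MeasureTheory Set Filter Topology
open scoped ContDiff

noncomputable section

abbrev pg5_C : Type := C(Icc (0:ℝ) 1, ℝ)

instance pg5_prob : IsProbabilityMeasure mu01 := ⟨by simp [mu01]⟩

/-- extension of a continuous function on `[0,1]` -/
def pg5_ext (φ : pg5_C) : ℝ → ℝ := IccExtend (zero_le_one : (0:ℝ) ≤ 1) φ

theorem pg5_ext_cont (φ : pg5_C) : Continuous (pg5_ext φ) := φ.continuous.Icc_extend'

theorem pg5_ext_le (φ : pg5_C) (s : ℝ) : |pg5_ext φ s| ≤ ‖φ‖ := by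
  rw [← Real.norm_eq_abs]
  exact φ.norm_coe_le_norm _

theorem pg5_ext_apply (φ : pg5_C) {s : ℝ} (hs : s ∈ Icc (0:ℝ) 1) : pg5_ext φ s = φ ⟨s, hs⟩ :=
  IccExtend_of_mem _ _ hs

theorem pg5_f_int (f : Lp ℝ 2 mu01) : Integrable (fun s => f s) mu01 :=
  (Lp.memLp f).integrable one_le_two

theorem pg5_int (f : Lp ℝ 2 mu01) (φ : pg5_C) : Integrable (fun s => f s * pg5_ext φ s) mu01 :=
  (pg5_f_int f).mul_bdd (c := ‖φ‖) (pg5_ext_cont φ).aestronglyMeasurable
    (Eventually.of_forall fun s => by rw [Real.norm_eq_abs]; exact pg5_ext_le φ s)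

/-- primitive -/
def pg5_prim (g : ℝ → ℝ) (hg : Integrable g mu01) : pg5_C where
  toFun t := ∫ s in (0:ℝ)..t, g s
  continuous_toFun := by
    have h : ContinuousOn (fun x => ∫ t in (0:ℝ)..x, g t) (uIcc (0:ℝ) 1) := by
      apply intervalIntegral.continuousOn_primitive_interval
      rw [uIcc_of_le zero_le_one]
      exact hg
    rw [uIcc_of_le zero_le_one] at h
    exact continuousOn_iff_continuous_domRestrict.1 h

theorem pg5_ii {g : ℝ → ℝ} (hg : Integrable g mu01) {t : ℝ} (ht : t ∈ Icc (0:ℝ) 1) :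
    IntervalIntegrable g volume 0 t := by
  rw [intervalIntegrable_iff_integrableOn_Icc_of_le ht.1]
  exact IntegrableOn.mono_set (t := Icc (0:ℝ) 1) hg (Icc_subset_Icc_right ht.2)

theorem pg5_congr {g g' : ℝ → ℝ} (h : g =ᵐ[mu01] g') {t : ℝ} (ht : t ∈ Icc (0:ℝ) 1) :
    ∫ s in (0:ℝ)..t, g s = ∫ s in (0:ℝ)..t, g' s := by
  apply intervalIntegral.integral_congr_ae
  rw [uIoc_of_le ht.1]
  have h' : ∀ᵐ s ∂volume, s ∈ Icc (0:ℝ) 1 → g s = g' s :=
    (ae_restrict_iff' measurableSet_Icc).1 h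
  filter_upwards [h'] with s hs hs'
  exact hs ⟨hs'.1.le, hs'.2.trans ht.2⟩

theorem pg5_norm_one_le (f : Lp ℝ 2 mu01) : ∫ s, |f s| ∂mu01 ≤ ‖f‖ := by
  have h1 : ∫ s, |f s| ∂mu01 = (eLpNorm f 1 mu01).toReal := by
    rw [eLpNorm_one_eq_lintegral_enorm, ← integral_norm_eq_lintegral_enorm (Lp.aestronglyMeasurable f)]
    rfl
  rw [h1, Lp.norm_def]
  exact ENNReal.toReal_mono (Lp.eLpNorm_ne_top f)
    (eLpNorm_le_eLpNorm_of_exponent_le one_le_two (Lp.aestronglyMeasurable f))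

theorem pg5_bound (f : Lp ℝ 2 mu01) (φ : pg5_C) :
    ‖pg5_prim (fun s => f s * pg5_ext φ s) (pg5_int f φ)‖ ≤ ‖f‖ * ‖φ‖ := by
  rw [ContinuousMap.norm_le _ (by positivity)]
  rintro ⟨t, ht⟩
  change ‖∫ s in (0:ℝ)..t, f s * pg5_ext φ s‖ ≤ _
  calc ‖∫ s in (0:ℝ)..t, f s * pg5_ext φ s‖ ≤ ∫ s in (0:ℝ)..t, ‖f s * pg5_ext φ s‖ :=
        intervalIntegral.norm_integral_le_integral_norm ht.1
    _ ≤ ∫ s in (0:ℝ)..1, ‖f s * pg5_ext φ s‖ := by
        apply intervalIntegral.integral_mono_interval le_rfl ht.1 ht.2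
        · exact Eventually.of_forall fun s => norm_nonneg _
        · exact (pg5_ii (pg5_int f φ) ⟨zero_le_one, le_rfl⟩).norm
    _ ≤ ∫ s in (0:ℝ)..1, |f s| * ‖φ‖ := by
        apply intervalIntegral.integral_mono_on zero_le_one
        · exact (pg5_ii (pg5_int f φ) ⟨zero_le_one, le_rfl⟩).norm
        · exact ((pg5_ii (pg5_f_int f) ⟨zero_le_one, le_rfl⟩).norm).mul_const _
        · intro s _
          rw [Real.norm_eq_abs, abs_mul]
          exact mul_le_mul_of_nonneg_left (pg5_ext_le φ s) (abs_nonneg _)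
    _ = (∫ s in (0:ℝ)..1, |f s|) * ‖φ‖ := by rw [intervalIntegral.integral_mul_const]
    _ ≤ ‖f‖ * ‖φ‖ := by
        apply mul_le_mul_of_nonneg_right _ (norm_nonneg _)
        rw [intervalIntegral.integral_of_le zero_le_one, ← integral_Icc_eq_integral_Ioc]
        exact pg5_norm_one_le f

/-- the bilinear map -/
def pg5_B : Lp ℝ 2 mu01 →L[ℝ] pg5_C →L[ℝ] pg5_C :=
  LinearMap.mkContinuous₂
    (LinearMap.mk₂ ℝ (fun f φ => pg5_prim (fun s => f s * pg5_ext φ s) (pg5_int f φ))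
      (by
        intro f f' φ
        ext ⟨t, ht⟩
        change ∫ s in (0:ℝ)..t, (f + f' : Lp ℝ 2 mu01) s * pg5_ext φ s =
          (∫ s in (0:ℝ)..t, f s * pg5_ext φ s) + ∫ s in (0:ℝ)..t, f' s * pg5_ext φ s
        rw [← intervalIntegral.integral_add (pg5_ii (pg5_int f φ) ht) (pg5_ii (pg5_int f' φ) ht)]
        apply pg5_congr _ ht
        filter_upwards [Lp.coeFn_add f f'] with s hs
        rw [hs, Pi.add_apply]; ring)
      (by
        intro c f φ
        ext ⟨t, ht⟩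
        change ∫ s in (0:ℝ)..t, (c • f : Lp ℝ 2 mu01) s * pg5_ext φ s =
          c * (∫ s in (0:ℝ)..t, f s * pg5_ext φ s)
        rw [← intervalIntegral.integral_const_mul]
        apply pg5_congr _ ht
        filter_upwards [Lp.coeFn_smul c f] with s hs
        rw [hs, Pi.smul_apply, smul_eq_mul]; ring)
      (by
        intro f φ φ'
        ext ⟨t, ht⟩
        change ∫ s in (0:ℝ)..t, f s * pg5_ext (φ + φ') s =
          (∫ s in (0:ℝ)..t, f s * pg5_ext φ s) + ∫ s in (0:ℝ)..t, f s * pg5_ext φ' s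
        rw [← intervalIntegral.integral_add (pg5_ii (pg5_int f φ) ht) (pg5_ii (pg5_int f φ') ht)]
        apply pg5_congr _ ht
        refine Eventually.of_forall fun s => ?_
        change f s * (φ _ + φ' _) = f s * φ _ + f s * φ' _
        ring)
      (by
        intro c f φ
        ext ⟨t, ht⟩
        change ∫ s in (0:ℝ)..t, f s * pg5_ext (c • φ) s =
          c * (∫ s in (0:ℝ)..t, f s * pg5_ext φ s)
        rw [← intervalIntegral.integral_const_mul]
        apply pg5_congr _ ht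
        refine Eventually.of_forall fun s => ?_
        change f s * (c * φ _) = c * (f s * φ _)
        ring)) 1 (by
    intro f φ
    rw [one_mul]
    exact pg5_bound f φ)

theorem pg5_B_apply (f : Lp ℝ 2 mu01) (φ : pg5_C) {t : ℝ} (ht : t ∈ Icc (0:ℝ) 1) :
    pg5_B f φ ⟨t, ht⟩ = ∫ s in (0:ℝ)..t, f s * pg5_ext φ s := rfl

/-- coordinate of the control -/
def pg5_co {m : ℕ} (j : Fin m) : L2 m →L[ℝ] Lp ℝ 2 mu01 :=
  (EuclideanSpace.proj (𝕜 := ℝ) j : EuclideanSpace ℝ (Fin m) →L[ℝ] ℝ).compLpL 2 mu01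

theorem pg5_co_ae {m : ℕ} (j : Fin m) (w : L2 m) : ∀ᵐ s ∂mu01, pg5_co j w s = w s j :=
  ContinuousLinearMap.coeFn_compLpL _ _

variable {ι : Type} [Fintype ι] {m : ℕ} (S : PG ι m)

/-- the Picard iterates with values in `C([0,1])` -/
def pg5_GR : ℕ → L2 m → ι → pg5_C
  | 0 => fun _ _ => 0
  | n + 1 => fun w k => ∑ j, pg5_B (pg5_co j w) (MvPolynomial.aeval (pg5_GR n w) (S.fld k j))

theorem pg5_aeval_contDiff {φ : L2 m → ι → pg5_C} (h : ∀ i, ContDiff ℝ ∞ fun w => φ w i)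
    (p : MvPolynomial ι ℝ) : ContDiff ℝ ∞ (fun w => MvPolynomial.aeval (φ w) p) := by
  induction p using MvPolynomial.induction_on with
  | C a =>
    simp only [MvPolynomial.aeval_C]
    exact contDiff_const
  | add p q hp hq =>
    simp only [map_add]
    exact hp.add hq
  | mul_X p i hp =>
    simp only [map_mul, MvPolynomial.aeval_X]
    exact hp.mul (h i)

theorem pg5_GR_contDiff (n : ℕ) (k : ι) : ContDiff ℝ ∞ (fun w => pg5_GR S n w k) := by
  induction n generalizing k with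
  | zero => exact contDiff_const
  | succ n ih =>
    exact ContDiff.sum fun j _ =>
      (pg5_B.comp (pg5_co j)).contDiff.clm_apply (pg5_aeval_contDiff (fun i => ih i) (S.fld k j))

theorem pg5_aeval_apply (φ : ι → pg5_C) (x : Icc (0:ℝ) 1) (p : MvPolynomial ι ℝ) :
    (MvPolynomial.aeval φ p : pg5_C) x = MvPolynomial.eval (fun i => φ i x) p := by
  induction p using MvPolynomial.induction_on with
  | C a =>
    simp only [MvPolynomial.aeval_C, MvPolynomial.eval_C]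
    rfl
  | add p q hp hq =>
    simp only [map_add, ContinuousMap.add_apply, hp, hq]
  | mul_X p i hp =>
    simp only [map_mul, MvPolynomial.aeval_X, MvPolynomial.eval_X, ContinuousMap.mul_apply, hp]

theorem pg5_pic (w : L2 m) (n : ℕ) (k : ι) {t : ℝ} (ht : t ∈ Icc (0:ℝ) 1) :
    S.pic (ctl w) n t k = pg5_GR S n w k ⟨t, ht⟩ := by
  induction n generalizing k t with
  | zero => rfl
  | succ n ih =>
    change ∫ s in (0:ℝ)..t, ∑ j, ctl w s j * MvPolynomial.eval (S.pic (ctl w) n s) (S.fld k j) =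
      (∑ j, pg5_B (pg5_co j w) (MvPolynomial.aeval (pg5_GR S n w) (S.fld k j)) : pg5_C) ⟨t, ht⟩
    rw [ContinuousMap.sum_apply]
    simp only [pg5_B_apply]
    rw [← intervalIntegral.integral_finsetSum fun j _ => pg5_ii (pg5_int _ _) ht]
    apply pg5_congr _ ht
    have h1 : ∀ᵐ s ∂mu01, s ∈ Icc (0:ℝ) 1 := ae_restrict_mem measurableSet_Icc
    have h2 : ∀ᵐ s ∂mu01, ∀ j, pg5_co j w s = w s j := ae_all_iff.2 fun j => pg5_co_ae j w
    filter_upwards [h1, h2] with s hs1 hs2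
    refine Finset.sum_congr rfl fun j _ => ?_
    rw [hs2 j, pg5_ext_apply _ hs1, pg5_aeval_apply]
    have h3 : S.pic (ctl w) n s = fun i => pg5_GR S n w i ⟨s, hs1⟩ := funext fun i => ih i hs1
    rw [h3]
    rfl

theorem contDiff_End : ContDiff ℝ ∞ (S.End : L2 m → S.Car) := by
  have h : ContDiff ℝ ∞ (fun (w : L2 m) (k : ι) =>
      pg5_GR S (Finset.univ.sup S.rk + 1) w k ⟨1, zero_le_one, le_rfl⟩) := by
    rw [contDiff_pi]
    intro k
    exact (ContinuousMap.evalCLM ℝ (⟨1, zero_le_one, le_rfl⟩ : Icc (0:ℝ) 1)).contDiff.comp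
      (pg5_GR_contDiff S _ k)
  have h' : (S.End : L2 m → S.Car) = (fun (w : L2 m) => ((fun (k : ι) =>
      pg5_GR S (Finset.univ.sup S.rk + 1) w k ⟨1, zero_le_one, le_rfl⟩) : ι → ℝ)) := by
    funext w k
    exact pg5_pic S w _ k _
  rw [h']
  exact h

/-- the curve depends continuously on the control, uniformly in `t ∈ [0,1]` -/
theorem gam_tendsto {w : L2 m} {κ : Type*} {l : Filter κ} {W : κ → L2 m} (h : Tendsto W l (𝓝 w)) :
    TendstoUniformlyOn (fun n t => S.gam (ctl (W n)) t) (S.gam (ctl w)) l (Icc (0:ℝ) 1) := by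
  rw [Metric.tendstoUniformlyOn_iff]
  intro ε hε
  have h1 : ∀ k : ι, ∀ᶠ n in l, dist (pg5_GR S (Finset.univ.sup S.rk + 1) w k)
      (pg5_GR S (Finset.univ.sup S.rk + 1) (W n) k) < ε := by
    intro k
    have h2 : Tendsto (fun n => pg5_GR S (Finset.univ.sup S.rk + 1) (W n) k) l
        (𝓝 (pg5_GR S (Finset.univ.sup S.rk + 1) w k)) :=
      ((pg5_GR_contDiff S _ k).continuous.tendsto w).comp h
    filter_upwards [Metric.tendsto_nhds.1 h2 ε hε] with n hn
    rwa [dist_comm]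
  filter_upwards [eventually_all.2 h1] with n hn t ht
  change dist (fun k => S.gam (ctl w) t k : ι → ℝ) (fun k => S.gam (ctl (W n)) t k) < ε
  rw [dist_pi_lt_iff hε]
  intro k
  have e1 : S.gam (ctl w) t k = pg5_GR S (Finset.univ.sup S.rk + 1) w k ⟨t, ht⟩ :=
    pg5_pic S w _ k ht
  have e2 : S.gam (ctl (W n)) t k = pg5_GR S (Finset.univ.sup S.rk + 1) (W n) k ⟨t, ht⟩ :=
    pg5_pic S (W n) _ k ht
  rw [e1, e2]
  exact (ContinuousMap.dist_apply_le_dist _).trans_lt (hn k)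

end

end H80A
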