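import Pool.Agent.Lib.H80A.PG1

/-!
# Chunk PG6: curves with `L²` controls are absolutely continuous (generalises `Lib/SRSard/LB.lean`)
-/

namespace H80A

open MeasureTheory Set Filter Topology

variable {ι : Type} [Fintype ι] {m : ℕ} (S : PG ι m)

theorem pg6_coord_int (w : L2 m) (j : Fin m) :
    IntervalIntegrable (fun s => ctl w s j) volume 0 1 := by
  have h1 : MemLp w 2 mu01 := Lp.memLp w
  have h2 : MemLp (fun s => w s j) 2 mu01 := by
    refine h1.mono ?_ (Eventually.of_forall fun s => ?_)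
    · have hc : Continuous (fun x : EuclideanSpace ℝ (Fin m) => x j) := by fun_prop
      exact hc.comp_aestronglyMeasurable h1.1
    · exact PiLp.norm_apply_le (w s) j
  have h3 : Integrable (fun s => w s j) mu01 := h2.integrable one_le_two
  rw [intervalIntegrable_iff_integrableOn_Icc_of_le zero_le_one]
  exact h3

theorem pg6_prim {f : ℝ → ℝ} (hf : IntervalIntegrable f volume 0 1) :
    ContinuousOn (fun t => ∫ s in (0:ℝ)..t, f s) (uIcc 0 1) :=
  intervalIntegral.continuousOn_primitive_interval' hf left_mem_uIcc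

/-- evaluation of a polynomial along a curve whose relevant coordinates are continuous -/
theorem pg6_eval {σ : Type} {p : MvPolynomial σ ℝ} {f : ℝ → σ → ℝ} {A : Set ℝ}
    (h : ∀ i ∈ p.vars, ContinuousOn (fun s => f s i) A) :
    ContinuousOn (fun s => MvPolynomial.eval (f s) p) A := by
  simp only [MvPolynomial.eval_eq]
  refine continuousOn_finsetSum _ fun d hd => ?_
  refine ContinuousOn.mul continuousOn_const ?_
  refine continuousOn_finsetProd _ fun i hi => ?_
  exact (h i ((MvPolynomial.mem_vars_iff_mem_support i).2 ⟨d, hd, hi⟩)).pow _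

theorem pg6_int_of (w : L2 m) (k : ι)
    (h : ∀ i, S.rk i < S.rk k → ContinuousOn (fun s => S.gam (ctl w) s i) (uIcc 0 1)) :
    IntervalIntegrable
      (fun s => ∑ j, ctl w s j * MvPolynomial.eval (S.gam (ctl w) s) (S.fld k j)) volume 0 1 := by
  have h1 : ∀ j : Fin m, IntervalIntegrable
      (fun s => ctl w s j * MvPolynomial.eval (S.gam (ctl w) s) (S.fld k j)) volume 0 1 := by
    intro j
    refine (pg6_coord_int w j).mul_continuousOn ?_
    exact pg6_eval fun i hi => h i (S.tri k j i hi)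
  have h2 := IntervalIntegrable.sum (μ := volume) (a := (0 : ℝ)) (b := 1) Finset.univ
    (f := fun j s => ctl w s j * MvPolynomial.eval (S.gam (ctl w) s) (S.fld k j))
    (fun j _ => h1 j)
  have e2 : (fun s => ∑ j, ctl w s j * MvPolynomial.eval (S.gam (ctl w) s) (S.fld k j)) =
      ∑ j : Fin m, fun s => ctl w s j * MvPolynomial.eval (S.gam (ctl w) s) (S.fld k j) := by
    funext s
    rw [Finset.sum_apply]
  rw [e2]
  exact h2

theorem pg6_cont (w : L2 m) : ∀ (n : ℕ) (k : ι), S.rk k < n →
    ContinuousOn (fun s => S.gam (ctl w) s k) (uIcc 0 1) := by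
  intro n
  induction n with
  | zero => exact fun k hk => absurd hk (Nat.not_lt_zero _)
  | succ n ih =>
    intro k hk
    have h1 := pg6_int_of S w k fun i hi => ih i (by omega)
    have e : (fun s => S.gam (ctl w) s k) = fun t => ∫ s in (0:ℝ)..t,
        ∑ j, ctl w s j * MvPolynomial.eval (S.gam (ctl w) s) (S.fld k j) :=
      funext fun t => gam_eq S _ k t
    rw [e]
    exact pg6_prim h1

theorem pg6_int (w : L2 m) (k : ι) :
    IntervalIntegrable
      (fun s => ∑ j, ctl w s j * MvPolynomial.eval (S.gam (ctl w) s) (S.fld k j)) volume 0 1 :=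
  pg6_int_of S w k fun i _ => pg6_cont S w (S.rk i + 1) i (Nat.lt_succ_self _)

theorem gam_continuousOn (w : L2 m) : ContinuousOn (S.gam (ctl w)) (Icc (0:ℝ) 1) := by
  have h : ∀ k : ι, ContinuousOn (fun t => S.gam (ctl w) t k) (Icc (0:ℝ) 1) := by
    intro k
    have := pg6_cont S w (S.rk k + 1) k (Nat.lt_succ_self _)
    rwa [uIcc_of_le zero_le_one] at this
  exact (continuousOn_pi (X := fun _ : ι => ℝ)).2 h

theorem gam_ac (w : L2 m) (k : ι) :
    AbsolutelyContinuousOnInterval (fun t => S.gam (ctl w) t k) 0 1 := by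
  have e : (fun t => S.gam (ctl w) t k) = fun t => ∫ s in (0:ℝ)..t,
      ∑ j, ctl w s j * MvPolynomial.eval (S.gam (ctl w) s) (S.fld k j) :=
    funext fun t => gam_eq S _ k t
  rw [e]
  exact (pg6_int S w k).absolutelyContinuousOnInterval_intervalIntegral left_mem_uIcc

theorem pg6_hor (g : S.Car) (c : Fin m → ℝ) (k : ι) :
    S.hor g c k = ∑ j, c j * MvPolynomial.eval g (S.fld k j) := by
  unfold PG.hor
  have h : ∀ (f : Fin m → S.Car), (∑ j, f j) k = ∑ j, f j k := fun f => Finset.sum_apply k _ f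
  rw [h]
  rfl

theorem gam_deriv (w : L2 m) : ∀ᵐ t ∂mu01,
    HasDerivAt (S.gam (ctl w)) (S.hor (S.gam (ctl w) t) (ctl w t)) t := by
  have h0 : ∀ᵐ t ∂mu01, ∀ k : ι,
      HasDerivAt (fun t => S.gam (ctl w) t k) (S.hor (S.gam (ctl w) t) (ctl w t) k) t := by
    rw [ae_all_iff]
    intro k
    rw [ae_restrict_iff' measurableSet_Icc]
    filter_upwards [(pg6_int S w k).ae_hasDerivAt_integral] with t ht hmem
    have h1 : t ∈ uIcc (0 : ℝ) 1 := by rwa [uIcc_of_le zero_le_one]
    have h2 := ht h1 0 left_mem_uIcc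
    have e : (fun t => S.gam (ctl w) t k) = fun t => ∫ s in (0:ℝ)..t,
        ∑ j, ctl w s j * MvPolynomial.eval (S.gam (ctl w) s) (S.fld k j) :=
      funext fun t => gam_eq S _ k t
    rw [e, pg6_hor]
    exact h2
  filter_upwards [h0] with t ht
  exact hasDerivAt_pi.2 ht

end H80A
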