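import Pool.Agent.Lib.H80A.PG3
import Pool.Agent.Lib.H80A.PG5
import Pool.Agent.Lib.H80A.PG6

/-!
# Chunk PG8: Lie group structure, invariant fields, endpoint map in the sense of the general definition
(generalises `Lib/SRSard/FA.lean`, `FB.lean`)
-/

namespace H80A

open MeasureTheory Set Filter Topology
open scoped Manifold ContDiff

variable {ι : Type} [Fintype ι] {m : ℕ} (S : PG ι m)

instance instLieGroup : LieGroup 𝓘(ℝ, S.Car) ∞ S.Car where
  contMDiff_mul := by
    rw [← modelWithCornersSelf_prod, chartedSpaceSelf_prod]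
    exact (contDiff_mul S).contMDiff
  contMDiff_inv := (contDiff_inv S).contMDiff

instance instSimply : SimplyConnectedSpace S.Car := inferInstance

theorem pg8_field (v : S.Car) (g : S.Car) :
    (mulInvariantVectorField (I := 𝓘(ℝ, S.Car)) (G := S.Car) v g : S.Car) =
      fderiv ℝ (fun h : S.Car => g * h) 0 v := by
  have h : (mulInvariantVectorField (I := 𝓘(ℝ, S.Car)) (G := S.Car) v g : S.Car)
      = mfderiv 𝓘(ℝ, S.Car) 𝓘(ℝ, S.Car) (fun b : S.Car => g * b) 1 v := rfl
  rw [h, mfderiv_eq_fderiv]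
  rfl

/-- the left invariant vector field of the `j`-th basis vector -/
theorem invariant_field (g : S.Car) (j : Fin m) :
    (mulInvariantVectorField (I := 𝓘(ℝ, S.Car)) (G := S.Car) (S.bas j) g : S.Car) = S.fv g j := by
  rw [pg8_field]
  have h := S.left g 0 j
  have h1 : S.mul g 0 = g := mul_one (g : S.Car)
  rw [h1] at h
  exact h

/-- the bracket of the Lie algebra: antisymmetrised second derivative of the multiplication at the
identity -/
theorem bracket_eq (v w : GroupLieAlgebra 𝓘(ℝ, S.Car) S.Car) :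
    (⁅v, w⁆ : GroupLieAlgebra 𝓘(ℝ, S.Car) S.Car) =
      (fderiv ℝ (fun g : S.Car => fderiv ℝ (fun h : S.Car => g * h) 0 (w : S.Car)) 0 (v : S.Car)
        - fderiv ℝ (fun g : S.Car => fderiv ℝ (fun h : S.Car => g * h) 0 (v : S.Car)) 0 (w : S.Car)
        : S.Car) := by
  rw [GroupLieAlgebra.bracket_def]
  rw [← VectorField.mlieBracketWithin_univ, VectorField.mlieBracketWithin_eq_lieBracketWithin,
    VectorField.lieBracketWithin_univ]
  have h1 : ∀ v : S.Car, (fun g : S.Car =>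
      (mulInvariantVectorField (I := 𝓘(ℝ, S.Car)) (G := S.Car) v g : S.Car)) =
      fun g : S.Car => fderiv ℝ (fun h : S.Car => g * h) 0 v :=
    fun v => funext (pg8_field S v)
  have h3 : ∀ v : S.Car, fderiv ℝ (fun h : S.Car => (0 : S.Car) * h) 0 v = v := by
    intro v
    have h4 : (fun h : S.Car => (0 : S.Car) * h) = fun h => h := by
      funext h
      exact one_mul h
    rw [h4]
    simp
  have h2 : VectorField.lieBracket ℝ (fun g : S.Car => fderiv ℝ (fun h : S.Car => g * h) 0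
      (v : S.Car)) (fun g : S.Car => fderiv ℝ (fun h : S.Car => g * h) 0 (w : S.Car)) 0
      = (fderiv ℝ (fun g : S.Car => fderiv ℝ (fun h : S.Car => g * h) 0 (w : S.Car)) 0 (v : S.Car)
        - fderiv ℝ (fun g : S.Car => fderiv ℝ (fun h : S.Car => g * h) 0 (v : S.Car)) 0 (w : S.Car)
        : S.Car) := by
    rw [VectorField.lieBracket, h3, h3]
  rw [← h2]
  change VectorField.lieBracket ℝ (fun g : S.Car =>
      (mulInvariantVectorField (I := 𝓘(ℝ, S.Car)) (G := S.Car) v g : S.Car)) (fun g : S.Car =>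
      (mulInvariantVectorField (I := 𝓘(ℝ, S.Car)) (G := S.Car) w g : S.Car)) 0 = _
  rw [h1 v, h1 w]

/-- absolutely continuous coordinates composed with a Lipschitz function -/
theorem pg8_ac {γ : ℝ → S.Car} (hγ : ∀ k, AbsolutelyContinuousOnInterval (fun t => γ t k) 0 1)
    {f : S.Car → ℝ} {K : Set S.Car} {C : NNReal} (hf : LipschitzOnWith C f K)
    (hK : ∀ t ∈ Icc (0:ℝ) 1, γ t ∈ K) :
    AbsolutelyContinuousOnInterval (fun t => f (γ t)) 0 1 := by
  have h1 : Tendsto (fun E : ℕ × (ℕ → ℝ × ℝ) => (C:ℝ) * ∑ k : ι, ∑ i ∈ Finset.range E.1,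
      dist (γ (E.2 i).1 k) (γ (E.2 i).2 k))
      (AbsolutelyContinuousOnInterval.totalLengthFilter ⊓
        𝓟 (AbsolutelyContinuousOnInterval.disjWithin 0 1)) (𝓝 0) := by
    have h2 : Tendsto (fun E : ℕ × (ℕ → ℝ × ℝ) => (C:ℝ) * ∑ k : ι, ∑ i ∈ Finset.range E.1,
      dist (γ (E.2 i).1 k) (γ (E.2 i).2 k))
      (AbsolutelyContinuousOnInterval.totalLengthFilter ⊓
        𝓟 (AbsolutelyContinuousOnInterval.disjWithin 0 1)) (𝓝 ((C:ℝ) * ∑ k : ι, 0)) :=
      (tendsto_finsetSum _ fun k _ => hγ k).const_mul _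
    simpa using h2
  refine squeeze_zero' ?_ ?_ h1
  · exact Eventually.of_forall fun E => Finset.sum_nonneg fun _ _ => dist_nonneg
  · have h3 : ∀ᶠ E : ℕ × (ℕ → ℝ × ℝ) in (AbsolutelyContinuousOnInterval.totalLengthFilter ⊓
        𝓟 (AbsolutelyContinuousOnInterval.disjWithin 0 1)),
        E ∈ AbsolutelyContinuousOnInterval.disjWithin 0 1 :=
      eventually_inf_principal.mpr (by simp)
    filter_upwards [h3] with E hE
    rw [Finset.sum_comm, Finset.mul_sum]
    refine Finset.sum_le_sum fun i hi => ?_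
    have hi' := hE.1 i hi
    rw [uIcc_of_le zero_le_one] at hi'
    have h4 : dist (f (γ (E.2 i).1)) (f (γ (E.2 i).2)) ≤ C * dist (γ (E.2 i).1) (γ (E.2 i).2) :=
      hf.dist_le_mul _ (hK _ hi'.1) _ (hK _ hi'.2)
    refine h4.trans (mul_le_mul_of_nonneg_left ?_ C.coe_nonneg)
    have h5 : ∀ a b : ι → ℝ, dist a b ≤ ∑ k, dist (a k) (b k) := by
      intro a b
      rw [dist_pi_le_iff (Finset.sum_nonneg fun _ _ => dist_nonneg)]
      intro k
      exact Finset.single_le_sum (f := fun k => dist (a k) (b k)) (fun _ _ => dist_nonneg)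
        (Finset.mem_univ k)
    exact h5 _ _

theorem pg8_comp_ac (w : L2 m) {f : S.Car → ℝ} (hf : ContDiff ℝ ∞ f) :
    AbsolutelyContinuousOnInterval (fun t => f (S.gam (ctl w) t)) 0 1 := by
  have hc : IsCompact (S.gam (ctl w) '' Icc (0:ℝ) 1) :=
    isCompact_Icc.image_of_continuousOn (gam_continuousOn S w)
  obtain ⟨R, hR⟩ := hc.isBounded.subset_closedBall (0 : S.Car)
  have hK : IsCompact (Metric.closedBall (0 : S.Car) R) := isCompact_closedBall _ _
  obtain ⟨C, hC⟩ := (hf.contDiffOn (s := Metric.closedBall (0 : S.Car) R)).exists_lipschitzOnWith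
    (by decide) (convex_closedBall _ _) hK
  exact pg8_ac S (gam_ac S w) hC fun t ht => hR ⟨t, ht, rfl⟩

theorem pg8_deriv (w : L2 m) {f : S.Car → ℝ} (hf : ContDiff ℝ ∞ f) :
    ∀ᵐ t ∂mu01, HasDerivAt (fun t => f (S.gam (ctl w) t))
      (fderiv ℝ f (S.gam (ctl w) t) (S.hor (S.gam (ctl w) t) (ctl w t))) t := by
  filter_upwards [gam_deriv S w] with t ht
  have h2 : HasFDerivAt f (fderiv ℝ f (S.gam (ctl w) t)) (S.gam (ctl w) t) :=
    (hf.differentiable (by decide)).differentiableAt.hasFDerivAt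
  exact h2.comp_hasDerivAt t ht

theorem pg8_ftc (w : L2 m) {f : S.Car → ℝ} (hf : ContDiff ℝ ∞ f) {t : ℝ}
    (ht : t ∈ Icc (0:ℝ) 1) :
    IntervalIntegrable
      (fun s => fderiv ℝ f (S.gam (ctl w) s) (S.hor (S.gam (ctl w) s) (ctl w s))) volume 0 t ∧
    f (S.gam (ctl w) t) - f (S.gam (ctl w) 0) =
      ∫ s in (0:ℝ)..t, fderiv ℝ f (S.gam (ctl w) s) (S.hor (S.gam (ctl w) s) (ctl w s)) := by
  have hac : AbsolutelyContinuousOnInterval (fun t => f (S.gam (ctl w) t)) 0 t := by
    apply (pg8_comp_ac S w hf).mono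
    rw [uIcc_of_le ht.1, uIcc_of_le zero_le_one]
    exact Icc_subset_Icc_right ht.2
  have hd := pg8_deriv S w hf
  have hd' : ∀ᵐ s ∂volume, s ∈ Icc (0:ℝ) 1 → HasDerivAt (fun t => f (S.gam (ctl w) t))
      (fderiv ℝ f (S.gam (ctl w) s) (S.hor (S.gam (ctl w) s) (ctl w s))) s :=
    (ae_restrict_iff' measurableSet_Icc).1 hd
  have he : ∀ᵐ s ∂volume, s ∈ Set.uIoc (0:ℝ) t → deriv (fun t => f (S.gam (ctl w) t)) s =
      fderiv ℝ f (S.gam (ctl w) s) (S.hor (S.gam (ctl w) s) (ctl w s)) := by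
    filter_upwards [hd'] with s hs hs'
    rw [uIoc_of_le ht.1] at hs'
    exact (hs ⟨hs'.1.le, hs'.2.trans ht.2⟩).deriv
  constructor
  · refine hac.intervalIntegrable_deriv.congr_ae ?_
    exact (ae_restrict_iff' measurableSet_uIoc).2 he
  · rw [← hac.integral_deriv_eq_sub]
    exact intervalIntegral.integral_congr_ae he

theorem isEndpointMap_End : SRSard.IsEndpointMap 𝓘(ℝ, S.Car) (G := S.Car) S.bas S.End := by
  refine ⟨contMDiff_iff_contDiff.2 (contDiff_End S), fun w => ⟨S.gam (ctl w),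
    ⟨gam_continuousOn S w, gam_zero S _, fun f hf t ht => ?_⟩, rfl⟩⟩
  have hf' : ContDiff ℝ ∞ f := contMDiff_iff_contDiff.1 hf
  have h := pg8_ftc S w hf' ht
  have key : ∀ s, (∑ j, w s j • (mulInvariantVectorField (I := 𝓘(ℝ, S.Car)) (G := S.Car)
      (S.bas j) (S.gam (ctl w) s) : S.Car) : S.Car) = S.hor (S.gam (ctl w) s) (ctl w s) := by
    intro s
    refine Finset.sum_congr rfl fun j _ => ?_
    exact congrArg (fun x : S.Car => w s j • x) (invariant_field S _ j)
  have he : (fun s => fderiv ℝ f (S.gam (ctl w) s) (S.hor (S.gam (ctl w) s) (ctl w s))) =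
      fun s => fderiv ℝ f (S.gam (ctl w) s) (∑ j, w s j •
        (mulInvariantVectorField (I := 𝓘(ℝ, S.Car)) (G := S.Car) (S.bas j)
          (S.gam (ctl w) s) : S.Car)) := by
    funext s
    rw [key]
  rw [he] at h
  simp only [mfderiv_eq_fderiv]
  exact h

end H80A
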