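import Pool.Agent.Lib.H80A.PG3
import Pool.Agent.Lib.H80A.PG5
import Pool.Agent.Lib.H80A.PG6

/-!
# Chunk PG9: curves inside `S.crit f` are critical (generalises `Lib/SRSard/Crit.lean`)

`C_m (h, g) = f (h * g⁻¹)`.  Its derivative at `(h, g)` in the direction `(hor h c, hor g c)` is zero
(left invariance of `h g⁻¹`), and its derivative at `(g, g)` in the direction `(hor g c, 0)` is zero if
`g ∈ S.crit f`.  The rest is word for word as in `Crit.lean`: with `Lam a = C_m (g0 * a, g0 * End w)`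
one gets `fderiv Lam (End w) ∘ fderiv End w = 0`; and `fderiv Lam (End w) ≠ 0` because
`a ↦ g0 * a * (g0 * End w)⁻¹` is a diffeomorphism which maps `End w` to `1` and `fderiv f 1 ≠ 0`.
-/

namespace H80A

open MeasureTheory Set Filter Topology
open scoped ContDiff

variable {ι : Type} [Fintype ι] {m : ℕ} (S : PG ι m)

noncomputable section

/-- the function on pairs -/
def pg9_M (f : S.Car → ℝ) (p : S.Car × S.Car) : ℝ := f (p.1 * p.2⁻¹)

theorem pg9_M_contDiff {f : S.Car → ℝ} (hf : ContDiff ℝ ∞ f) : ContDiff ℝ ∞ (pg9_M S f) := by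
  have h : ContDiff ℝ ∞ (fun p : S.Car × S.Car => p.1 * p.2⁻¹) :=
    (contDiff_mul S).comp (contDiff_fst.prodMk ((contDiff_inv S).comp contDiff_snd))
  exact hf.comp h

theorem pg9_hor_sub (g : S.Car) (a b : Fin m → ℝ) : S.hor g (a - b) = S.hor g a - S.hor g b := by
  have h := hor_add S g (a - b) b
  rw [sub_add_cancel] at h
  rw [h, add_sub_cancel_right]

theorem pg9_hor_zero (g : S.Car) : S.hor g 0 = 0 := by
  have h := hor_smul S g 0 0
  simpa using h

theorem pg9_hor_sum {κ : Type*} (s : Finset κ) (g : S.Car) (f : κ → Fin m → ℝ) :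
    S.hor g (∑ j ∈ s, f j) = ∑ j ∈ s, S.hor g (f j) := by
  classical
  induction s using Finset.induction_on with
  | empty => simp only [Finset.sum_empty]; exact pg9_hor_zero S g
  | insert a s ha ih => rw [Finset.sum_insert ha, Finset.sum_insert ha, hor_add, ih]

theorem pg9_hor_cont (c : Fin m → ℝ) : Continuous (fun g : S.Car => S.hor g c) := by
  have h : ∀ k : ι, Continuous (fun g : S.Car => (S.hor g c k : ℝ)) := by
    intro k
    simp only [hor_apply]
    refine continuous_finsetSum _ fun j _ => continuous_const.mul ?_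
    exact MvPolynomial.continuous_eval (S.fld k j)
  exact continuous_pi h

/-- the horizontal part as a curve -/
theorem pg9_curve (g : S.Car) (c : Fin m → ℝ) :
    HasDerivAt (fun s : ℝ => g * (s • S.hor 1 c)) (S.hor g c) 0 := by
  have h : HasDerivAt (fun s : ℝ => s • S.hor 1 c) (S.hor ((0 : ℝ) • S.hor 1 c) c) 0 := by
    have := (hasDerivAt_id (0 : ℝ)).smul_const (S.hor 1 c)
    simp only [id_eq, one_smul] at this
    rw [zero_smul, ← S.one_def]
    exact this
  have h2 := hor_left_invariant S g h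
  rw [zero_smul, ← S.one_def, mul_one] at h2
  exact h2

theorem pg9_curve_zero (g : S.Car) (c : Fin m → ℝ) : g * ((0 : ℝ) • S.hor 1 c) = g := by
  rw [zero_smul, ← S.one_def, mul_one]

theorem pg9_left_inv {f : S.Car → ℝ} (hf : ContDiff ℝ ∞ f) (h g : S.Car) (c : Fin m → ℝ) :
    fderiv ℝ (pg9_M S f) (h, g) (S.hor h c, S.hor g c) = 0 := by
  have hd := ((pg9_M_contDiff S hf).differentiable (by simp) (h, g)).hasFDerivAt
  have h1 := (pg9_curve S h c).prodMk (pg9_curve S g c)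
  have h2 : HasDerivAt (fun s : ℝ => pg9_M S f (h * (s • S.hor 1 c), g * (s • S.hor 1 c)))
      (fderiv ℝ (pg9_M S f) (h, g) (S.hor h c, S.hor g c)) 0 := by
    have hd' : HasFDerivAt (pg9_M S f) (fderiv ℝ (pg9_M S f) (h, g))
        ((fun s : ℝ => (h * (s • S.hor 1 c), g * (s • S.hor 1 c))) 0) := by
      simp only [pg9_curve_zero]
      exact hd
    exact hd'.comp_hasDerivAt (0 : ℝ) h1
  have h3 : (fun s : ℝ => pg9_M S f (h * (s • S.hor 1 c), g * (s • S.hor 1 c))) =
      fun _ => pg9_M S f (h, g) := by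
    funext s
    unfold pg9_M
    simp only
    rw [mul_inv_rev, mul_assoc, mul_inv_cancel_left]
  rw [h3] at h2
  exact h2.unique (hasDerivAt_const _ _)

theorem pg9_fderiv_zero {f : S.Car → ℝ} (hf : ContDiff ℝ ∞ f) {g : S.Car} (hg : g ∈ S.crit f)
    (c : Fin m → ℝ) : fderiv ℝ (pg9_M S f) (g, g) (S.hor g c, 0) = 0 := by
  have hd := ((pg9_M_contDiff S hf).differentiable (by simp) (g, g)).hasFDerivAt
  have h1 : HasFDerivAt (fun h : S.Car => ((h, g) : S.Car × S.Car))
      ((ContinuousLinearMap.id ℝ S.Car).prod 0) g :=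
    (hasFDerivAt_id g).prodMk (hasFDerivAt_const g g)
  have h2 : HasFDerivAt (fun h : S.Car => f (h * g⁻¹))
      ((fderiv ℝ (pg9_M S f) (g, g)).comp ((ContinuousLinearMap.id ℝ S.Car).prod 0)) g :=
    HasFDerivAt.comp g (f := fun h : S.Car => ((h, g) : S.Car × S.Car)) (g := pg9_M S f) hd h1
  have h3 := hg c
  rw [h2.fderiv] at h3
  exact h3

/-- the coefficient functions -/
def pg9_P (f : S.Car → ℝ) (g0 : S.Car) (j : Fin m) (p : S.Car × S.Car) : ℝ :=
  fderiv ℝ (pg9_M S f) (g0 * p.1, g0 * p.2) (S.hor (g0 * p.1) (Pi.single j 1), 0)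

theorem pg9_mul_contDiff (g0 : S.Car) : ContDiff ℝ ∞ (fun a : S.Car => g0 * a) :=
  (contDiff_mul S).comp (contDiff_const.prodMk contDiff_id)

theorem pg9_P_cont {f : S.Car → ℝ} (hf : ContDiff ℝ ∞ f) (g0 : S.Car) (j : Fin m) :
    Continuous (pg9_P S f g0 j) := by
  have hL : Continuous (fun a : S.Car => g0 * a) := (pg9_mul_contDiff S g0).continuous
  have hf' : Continuous (fderiv ℝ (pg9_M S f)) :=
    (pg9_M_contDiff S hf).continuous_fderiv (by simp)
  have h1 : Continuous (fun p : S.Car × S.Car => fderiv ℝ (pg9_M S f) (g0 * p.1, g0 * p.2)) :=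
    hf'.comp ((hL.comp continuous_fst).prodMk (hL.comp continuous_snd))
  have h2 : Continuous (fun p : S.Car × S.Car =>
      ((S.hor (g0 * p.1) (Pi.single j 1), 0) : S.Car × S.Car)) :=
    ((pg9_hor_cont S _).comp (hL.comp continuous_fst)).prodMk continuous_const
  exact h1.clm_apply h2

/-- the function on pairs of curves -/
def pg9_F (f : S.Car → ℝ) (g0 : S.Car) (a b : S.Car) : ℝ := pg9_M S f (g0 * a, g0 * b)

theorem pg9_gam_hasDerivAt (g0 : S.Car) (w : L2 m) : ∀ᵐ t ∂mu01,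
    HasDerivAt (fun t => g0 * S.gam (ctl w) t) (S.hor (g0 * S.gam (ctl w) t) (ctl w t)) t := by
  filter_upwards [gam_deriv S w] with t ht
  exact hor_left_invariant S g0 ht

theorem pg9_F_deriv {f : S.Car → ℝ} (hf : ContDiff ℝ ∞ f) (g0 : S.Car) (w w' : L2 m) :
    ∀ᵐ t ∂mu01, HasDerivAt (fun t => pg9_F S f g0 (S.gam (ctl w') t) (S.gam (ctl w) t))
      (∑ j, (w' - w) t j * pg9_P S f g0 j (S.gam (ctl w') t, S.gam (ctl w) t)) t := by
  filter_upwards [pg9_gam_hasDerivAt S g0 w, pg9_gam_hasDerivAt S g0 w', Lp.coeFn_sub w' w] with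
    t h1 h2 h3
  set h := g0 * S.gam (ctl w') t with hh
  set g := g0 * S.gam (ctl w) t with hg
  have hd := ((pg9_M_contDiff S hf).differentiable (by simp) (h, g)).hasFDerivAt
  have hF : HasDerivAt (fun t => pg9_F S f g0 (S.gam (ctl w') t) (S.gam (ctl w) t))
      (fderiv ℝ (pg9_M S f) (h, g) (S.hor h (ctl w' t), S.hor g (ctl w t))) t :=
    HasFDerivAt.comp_hasDerivAt t
      (f := fun t => (g0 * S.gam (ctl w') t, g0 * S.gam (ctl w) t)) hd (h2.prodMk h1)
  refine hF.congr_deriv ?_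
  have e1 : ((S.hor h (ctl w' t), S.hor g (ctl w t)) : S.Car × S.Car) =
      (S.hor h (ctl w' t - ctl w t), 0) + (S.hor h (ctl w t), S.hor g (ctl w t)) := by
    rw [Prod.mk_add_mk, pg9_hor_sub, sub_add_cancel, zero_add]
  rw [e1, map_add, pg9_left_inv S hf, add_zero]
  have e2 : ctl w' t - ctl w t = ∑ j, (w' - w) t j • (Pi.single j 1 : Fin m → ℝ) := by
    funext i
    rw [Finset.sum_apply, Finset.sum_eq_single i]
    · rw [h3]
      simp [ctl]
    · intro j _ hj
      simp [Pi.single_apply, hj.symm]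
    · intro hi
      exact absurd (Finset.mem_univ i) hi
  rw [e2, pg9_hor_sum]
  have e3 : ((∑ j, S.hor h ((w' - w) t j • (Pi.single j 1 : Fin m → ℝ)), 0) : S.Car × S.Car) =
      ∑ j, (w' - w) t j • ((S.hor h (Pi.single j 1), 0) : S.Car × S.Car) := by
    rw [Prod.ext_iff]
    constructor
    · rw [Prod.fst_sum]
      change ∑ j, S.hor h ((w' - w) t j • (Pi.single j 1 : Fin m → ℝ)) = _
      apply Finset.sum_congr rfl
      intro j _
      rw [hor_smul]
      rfl
    · rw [Prod.snd_sum]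
      simp
  rw [e3, map_sum]
  apply Finset.sum_congr rfl
  intro j _
  rw [map_smul, smul_eq_mul]
  rfl

theorem pg9_ac_comp {f : ℝ → S.Car × S.Car} (h1 : ∀ k : ι, AbsolutelyContinuousOnInterval
      (fun t => ((f t).1 k : ℝ)) 0 1) (h2 : ∀ k : ι, AbsolutelyContinuousOnInterval
      (fun t => ((f t).2 k : ℝ)) 0 1) {F : S.Car × S.Car → ℝ} (hF : ContDiff ℝ 1 F) :
    AbsolutelyContinuousOnInterval (fun t => F (f t)) 0 1 := by
  have hc : ContinuousOn f (uIcc 0 1) := by
    refine ContinuousOn.prodMk ?_ ?_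
    · exact continuousOn_pi.mpr (fun k => (h1 k).continuousOn)
    · exact continuousOn_pi.mpr (fun k => (h2 k).continuousOn)
  -- Lipschitz on a ball
  obtain ⟨R, hR⟩ := (isCompact_uIcc.image_of_continuousOn hc).isBounded.subset_closedBall
    (0 : S.Car × S.Car)
  obtain ⟨K, hK⟩ := (hF.contDiffOn
    (s := Metric.closedBall (0 : S.Car × S.Car) R)).exists_lipschitzOnWith
    (by decide) (convex_closedBall _ _) (isCompact_closedBall _ _)
  have hdist : ∀ x ∈ uIcc (0:ℝ) 1, ∀ y ∈ uIcc (0:ℝ) 1, dist (F (f x)) (F (f y)) ≤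
      K * ∑ k : ι, (dist ((f x).1 k : ℝ) ((f y).1 k) + dist ((f x).2 k : ℝ) ((f y).2 k)) := by
    intro x hx y hy
    refine (hK.dist_le_mul _ (hR (mem_image_of_mem f hx)) _ (hR (mem_image_of_mem f hy))).trans ?_
    refine mul_le_mul_of_nonneg_left ?_ K.2
    have hnn : ∀ k : ι, 0 ≤ dist ((f x).1 k : ℝ) ((f y).1 k) + dist ((f x).2 k : ℝ) ((f y).2 k) :=
      fun k => add_nonneg dist_nonneg dist_nonneg
    rw [Prod.dist_eq]
    refine max_le ?_ ?_
    · refine (dist_pi_le_iff (Finset.sum_nonneg fun k _ => hnn k)).mpr (fun k => ?_)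
      refine le_trans ?_ (Finset.single_le_sum (fun k _ => hnn k) (Finset.mem_univ k))
      exact le_add_of_nonneg_right dist_nonneg
    · refine (dist_pi_le_iff (Finset.sum_nonneg fun k _ => hnn k)).mpr (fun k => ?_)
      refine le_trans ?_ (Finset.single_le_sum (fun k _ => hnn k) (Finset.mem_univ k))
      exact le_add_of_nonneg_left dist_nonneg
  have hlim : Tendsto (fun E : ℕ × (ℕ → ℝ × ℝ) => (K : ℝ) * ∑ k : ι,
      (∑ i ∈ Finset.range E.1, dist ((f (E.2 i).1).1 k : ℝ) ((f (E.2 i).2).1 k) +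
        ∑ i ∈ Finset.range E.1, dist ((f (E.2 i).1).2 k : ℝ) ((f (E.2 i).2).2 k)))
      (AbsolutelyContinuousOnInterval.totalLengthFilter ⊓
        𝓟 (AbsolutelyContinuousOnInterval.disjWithin 0 1)) (𝓝 0) := by
    have t1 : ∀ k : ι, Tendsto (fun E : ℕ × (ℕ → ℝ × ℝ) =>
        ∑ i ∈ Finset.range E.1, dist ((f (E.2 i).1).1 k : ℝ) ((f (E.2 i).2).1 k))
        (AbsolutelyContinuousOnInterval.totalLengthFilter ⊓
        𝓟 (AbsolutelyContinuousOnInterval.disjWithin 0 1)) (𝓝 0) := h1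
    have t2 : ∀ k : ι, Tendsto (fun E : ℕ × (ℕ → ℝ × ℝ) =>
        ∑ i ∈ Finset.range E.1, dist ((f (E.2 i).1).2 k : ℝ) ((f (E.2 i).2).2 k))
        (AbsolutelyContinuousOnInterval.totalLengthFilter ⊓
        𝓟 (AbsolutelyContinuousOnInterval.disjWithin 0 1)) (𝓝 0) := h2
    have t3 := Tendsto.const_mul (K : ℝ)
      (tendsto_finsetSum (Finset.univ : Finset ι) (fun k _ => Tendsto.add (t1 k) (t2 k)))
    simp only [add_zero, Finset.sum_const_zero, mul_zero] at t3
    exact t3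
  unfold AbsolutelyContinuousOnInterval
  refine squeeze_zero' ?_ ?_ hlim
  · exact Eventually.of_forall fun E => Finset.sum_nonneg fun i _ => dist_nonneg
  · rw [eventually_inf_principal]
    refine Eventually.of_forall fun E hE => ?_
    have e1 : ∑ i ∈ Finset.range E.1, dist (F (f (E.2 i).1)) (F (f (E.2 i).2)) ≤
        ∑ i ∈ Finset.range E.1, (K : ℝ) * ∑ k : ι, (dist ((f (E.2 i).1).1 k : ℝ) ((f (E.2 i).2).1 k)
          + dist ((f (E.2 i).1).2 k : ℝ) ((f (E.2 i).2).2 k)) := by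
      apply Finset.sum_le_sum
      intro i hi
      exact hdist _ (hE.1 i hi).1 _ (hE.1 i hi).2
    refine e1.trans (le_of_eq ?_)
    rw [← Finset.mul_sum, Finset.sum_comm]
    congr 1
    apply Finset.sum_congr rfl
    intro k _
    rw [Finset.sum_add_distrib]

theorem pg9_F_ac {f : S.Car → ℝ} (hf : ContDiff ℝ ∞ f) (g0 : S.Car) (w w' : L2 m) :
    AbsolutelyContinuousOnInterval
      (fun t => pg9_F S f g0 (S.gam (ctl w') t) (S.gam (ctl w) t)) 0 1 := by
  have hL : ContDiff ℝ 1 (fun a : S.Car => g0 * a) :=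
    (pg9_mul_contDiff S g0).of_le (by exact_mod_cast le_top)
  have hM : ContDiff ℝ 1 (pg9_M S f) := (pg9_M_contDiff S hf).of_le (by exact_mod_cast le_top)
  exact pg9_ac_comp S (f := fun t => (S.gam (ctl w') t, S.gam (ctl w) t)) (fun k => gam_ac S w' k)
    (fun k => gam_ac S w k) (F := fun p => pg9_M S f (g0 * p.1, g0 * p.2))
    (hM.comp ((hL.comp contDiff_fst).prodMk (hL.comp contDiff_snd)))

theorem pg9_F_one {f : S.Car → ℝ} (hf : ContDiff ℝ ∞ f) (g0 : S.Car) (w w' : L2 m) :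
    pg9_F S f g0 (S.gam (ctl w') 1) (S.gam (ctl w) 1) - f 1 =
      ∫ t in (0:ℝ)..1, ∑ j, (w' - w) t j *
        pg9_P S f g0 j (S.gam (ctl w') t, S.gam (ctl w) t) := by
  have h := (pg9_F_ac S hf g0 w w').integral_deriv_eq_sub
  have h0 : pg9_F S f g0 (S.gam (ctl w') 0) (S.gam (ctl w) 0) = f 1 := by
    unfold pg9_F pg9_M
    rw [gam_zero, gam_zero]
    simp only
    rw [mul_inv_cancel]
  rw [h0] at h
  rw [← h]
  apply intervalIntegral.integral_congr_ae
  have h2 := pg9_F_deriv S hf g0 w w'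
  rw [ae_restrict_iff' measurableSet_Icc] at h2
  filter_upwards [h2] with t ht hm
  rw [uIoc_of_le zero_le_one] at hm
  exact (ht ⟨hm.1.le, hm.2⟩).deriv

theorem pg9_norm_int (δ : L2 m) :
    IntervalIntegrable (fun t => (m : ℝ) * ‖δ t‖) volume 0 1 := by
  have h1 : MemLp δ 2 mu01 := Lp.memLp δ
  have h3 : Integrable δ mu01 := h1.integrable one_le_two
  rw [intervalIntegrable_iff_integrableOn_Icc_of_le zero_le_one]
  exact (h3.norm).const_mul (m : ℝ)

/-- small coefficients -/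
theorem pg9_P_small {f : S.Car → ℝ} (hf : ContDiff ℝ ∞ f) {w : L2 m} {g0 : S.Car}
    (h : ∀ t ∈ Icc (0:ℝ) 1, g0 * S.gam (ctl w) t ∈ S.crit f) (δ : L2 m)
    {e : ℝ} (he : 0 < e) : ∀ᶠ s in 𝓝 (0:ℝ), ∀ t ∈ Icc (0:ℝ) 1, ∀ j,
      |pg9_P S f g0 j (S.gam (ctl (w + s • δ)) t, S.gam (ctl w) t)| < e := by
  have hW : Tendsto (fun s : ℝ => w + s • δ) (𝓝 0) (𝓝 w) := by
    have : Continuous (fun s : ℝ => w + s • δ) := by fun_prop
    have h2 := this.tendsto 0
    simpa using h2
  have hU := gam_tendsto S hW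
  have hKc : IsCompact ((fun t => ((S.gam (ctl w) t, S.gam (ctl w) t) : S.Car × S.Car)) ''
      Icc (0:ℝ) 1) :=
    isCompact_Icc.image_of_continuousOn ((gam_continuousOn S w).prodMk (gam_continuousOn S w))
  have hzero : ∀ j, ∀ t ∈ Icc (0:ℝ) 1, pg9_P S f g0 j (S.gam (ctl w) t, S.gam (ctl w) t) = 0 := by
    intro j t ht
    unfold pg9_P
    exact pg9_fderiv_zero S hf (h t ht) _
  have key : ∀ j, ∀ᶠ s in 𝓝 (0:ℝ), ∀ t ∈ Icc (0:ℝ) 1,
      |pg9_P S f g0 j (S.gam (ctl (w + s • δ)) t, S.gam (ctl w) t)| < e := by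
    intro j
    have hu := hKc.uniformContinuousAt_of_continuousAt (pg9_P S f g0 j)
      (fun a _ => (pg9_P_cont S hf g0 j).continuousAt) (Metric.dist_mem_uniformity he)
    rw [Metric.mem_uniformity_dist] at hu
    obtain ⟨r, hr, hr2⟩ := hu
    rw [Metric.tendstoUniformlyOn_iff] at hU
    filter_upwards [hU r hr] with s hs t ht
    have h1 := hr2 (a := (S.gam (ctl w) t, S.gam (ctl w) t))
      (b := (S.gam (ctl (w + s • δ)) t, S.gam (ctl w) t)) (by
        rw [Prod.dist_eq]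
        simp only [dist_self]
        exact max_lt (hs t ht) hr) (mem_image_of_mem _ ht)
    simp only [mem_ofPred_eq] at h1
    rw [hzero j t ht, dist_comm, Real.dist_eq, sub_zero] at h1
    exact h1
  filter_upwards [eventually_all.mpr key] with s hs t ht j
  exact hs j t ht

theorem pg9_phi_deriv {f : S.Car → ℝ} (hf : ContDiff ℝ ∞ f) {w : L2 m} {g0 : S.Car}
    (h : ∀ t ∈ Icc (0:ℝ) 1, g0 * S.gam (ctl w) t ∈ S.crit f) (δ : L2 m) :
    HasDerivAt (fun s : ℝ => pg9_M S f (g0 * S.End (w + s • δ), g0 * S.End w)) 0 0 := by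
  rw [hasDerivAt_iff_isLittleO]
  have h0 : pg9_M S f (g0 * S.End (w + (0:ℝ) • δ), g0 * S.End w) = f 1 := by
    rw [zero_smul, add_zero]
    unfold pg9_M
    simp only
    rw [mul_inv_cancel]
  simp only [h0, smul_zero, sub_zero]
  set C := ∫ t in (0:ℝ)..1, (m : ℝ) * ‖δ t‖ with hC
  have hC0 : 0 ≤ C := intervalIntegral.integral_nonneg zero_le_one (fun t _ => by positivity)
  rw [Asymptotics.isLittleO_iff]
  intro c hc
  have he : 0 < c / (C + 1) := by positivity
  filter_upwards [pg9_P_small S hf h δ he] with s hs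
  have h1 := pg9_F_one S hf g0 w (w + s • δ)
  have h2 : pg9_M S f (g0 * S.End (w + s • δ), g0 * S.End w) =
      pg9_F S f g0 (S.gam (ctl (w + s • δ)) 1) (S.gam (ctl w) 1) := rfl
  rw [h2, h1, add_sub_cancel_left]
  have h3 : ‖∫ t in (0:ℝ)..1, ∑ j, (s • δ) t j *
      pg9_P S f g0 j (S.gam (ctl (w + s • δ)) t, S.gam (ctl w) t)‖
      ≤ ∫ t in (0:ℝ)..1, |s| * (c / (C + 1)) * ((m : ℝ) * ‖δ t‖) := by
    refine intervalIntegral.norm_integral_le_of_norm_le zero_le_one ?_
      ((pg9_norm_int δ).const_mul _)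
    have h4 := Lp.coeFn_smul s δ
    rw [Filter.EventuallyEq, ae_restrict_iff' measurableSet_Icc] at h4
    filter_upwards [h4] with t ht hm
    have hm' : t ∈ Icc (0:ℝ) 1 := ⟨hm.1.le, hm.2⟩
    rw [ht hm']
    refine (norm_sum_le _ _).trans ?_
    have h5 : ∀ j ∈ (Finset.univ : Finset (Fin m)), ‖(s • (δ : ℝ → EuclideanSpace ℝ (Fin m))) t j *
        pg9_P S f g0 j (S.gam (ctl (w + s • δ)) t, S.gam (ctl w) t)‖ ≤
          |s| * (c / (C + 1)) * ‖δ t‖ := by
      intro j _
      rw [norm_mul]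
      have e1 : ‖(s • (δ : ℝ → EuclideanSpace ℝ (Fin m))) t j‖ ≤ |s| * ‖δ t‖ := by
        refine (PiLp.norm_apply_le _ j).trans ?_
        rw [Pi.smul_apply, norm_smul, Real.norm_eq_abs]
      have e2 : ‖pg9_P S f g0 j (S.gam (ctl (w + s • δ)) t, S.gam (ctl w) t)‖ ≤ c / (C + 1) :=
        (hs t hm' j).le
      calc _ ≤ (|s| * ‖δ t‖) * (c / (C + 1)) := by
            apply mul_le_mul e1 e2 (norm_nonneg _) (by positivity)
        _ = |s| * (c / (C + 1)) * ‖δ t‖ := by ring
    refine (Finset.sum_le_sum h5).trans ?_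
    rw [Finset.sum_const, Finset.card_univ, Fintype.card_fin, nsmul_eq_mul]
    apply le_of_eq
    ring
  refine h3.trans ?_
  rw [intervalIntegral.integral_const_mul, ← hC, Real.norm_eq_abs]
  have h6 : c / (C + 1) * C ≤ c := by
    rw [div_mul_eq_mul_div, div_le_iff₀ (by positivity)]
    nlinarith
  calc |s| * (c / (C + 1)) * C = |s| * (c / (C + 1) * C) := by ring
    _ ≤ |s| * c := mul_le_mul_of_nonneg_left h6 (abs_nonneg s)
    _ = c * |s| := by ring

theorem crit_not_surjective {f : S.Car → ℝ} (hf : ContDiff ℝ ∞ f) (hf1 : fderiv ℝ f 1 ≠ 0)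
    {w : L2 m} {g0 : S.Car} (h : ∀ t ∈ Icc (0:ℝ) 1, g0 * S.gam (ctl w) t ∈ S.crit f) :
    ¬ Function.Surjective (fderiv ℝ S.End w) := by
  intro hs
  -- the functional
  set Lam : S.Car → ℝ := fun a => pg9_M S f (g0 * a, g0 * S.End w) with hLam
  have hL : ContDiff ℝ ∞ Lam :=
    (pg9_M_contDiff S hf).comp ((pg9_mul_contDiff S g0).prodMk contDiff_const)
  have hLd : HasFDerivAt Lam (fderiv ℝ Lam (S.End w)) (S.End w) :=
    (hL.differentiable (by simp) (S.End w)).hasFDerivAt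
  have hzero : ∀ e : S.Car, fderiv ℝ Lam (S.End w) e = 0 := by
    intro ez
    obtain ⟨δ, hδ⟩ := hs ez
    -- derivative along the line in L2
    have hline : HasDerivAt (fun s : ℝ => w + s • δ) δ 0 := by
      have := ((hasDerivAt_id (0:ℝ)).smul_const δ).const_add w
      simpa using this
    have hEnd : HasFDerivAt S.End (fderiv ℝ S.End w) (w + (0:ℝ) • δ) := by
      rw [zero_smul, add_zero]
      exact ((contDiff_End S).differentiable (by simp) w).hasFDerivAt
    have h1 : HasDerivAt (fun s : ℝ => S.End (w + s • δ)) (fderiv ℝ S.End w δ) 0 :=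
      HasFDerivAt.comp_hasDerivAt (0:ℝ) (f := fun s : ℝ => w + s • δ) hEnd hline
    have hLd' : HasFDerivAt Lam (fderiv ℝ Lam (S.End w)) ((fun s : ℝ => S.End (w + s • δ)) 0) := by
      simp only [zero_smul, add_zero]
      exact hLd
    have h2 : HasDerivAt (fun s : ℝ => Lam (S.End (w + s • δ)))
        (fderiv ℝ Lam (S.End w) (fderiv ℝ S.End w δ)) 0 :=
      HasFDerivAt.comp_hasDerivAt (0:ℝ) (f := fun s : ℝ => S.End (w + s • δ)) hLd' h1
    have h3 := h2.unique (pg9_phi_deriv S hf h δ)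
    rw [hδ] at h3
    exact h3
  -- `f` is `Lam` after a diffeomorphism
  set Φ : S.Car → S.Car := fun b => g0⁻¹ * (b * (g0 * S.End w)) with hΦ
  have hΦc : ContDiff ℝ ∞ Φ := by
    have h1 : ContDiff ℝ ∞ (fun b : S.Car => b * (g0 * S.End w)) :=
      (contDiff_mul S).comp (contDiff_id.prodMk contDiff_const)
    exact (pg9_mul_contDiff S g0⁻¹).comp h1
  have hΦ1 : Φ 1 = S.End w := by
    simp only [hΦ]
    rw [one_mul, inv_mul_cancel_left]
  have hfΦ : f = fun b => Lam (Φ b) := by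
    funext b
    simp only [hLam, hΦ, pg9_M]
    rw [mul_inv_cancel_left, mul_inv_cancel_right]
  have hΦd : HasFDerivAt Φ (fderiv ℝ Φ 1) 1 := (hΦc.differentiable (by simp) 1).hasFDerivAt
  have hLd2 : HasFDerivAt Lam (fderiv ℝ Lam (S.End w)) (Φ 1) := by
    rw [hΦ1]
    exact hLd
  have hcomp := HasFDerivAt.comp (1 : S.Car) hLd2 hΦd
  apply hf1
  have h5 : fderiv ℝ f 1 = (fderiv ℝ Lam (S.End w)).comp (fderiv ℝ Φ 1) := by
    have h6 : HasFDerivAt f ((fderiv ℝ Lam (S.End w)).comp (fderiv ℝ Φ 1)) 1 := by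
      have h7 : f = Lam ∘ Φ := hfΦ
      rw [h7]
      exact hcomp
    exact h6.fderiv
  rw [h5]
  ext v
  exact hzero _

end

end H80A
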