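import Pool.Agent.Lib.H80A.PG4
import Pool.Agent.Lib.H80A.PG7
import Pool.Agent.Lib.H80A.PG8
import Pool.Agent.Lib.H80A.PG9

/-!
# Chunk PG10: reachable elements are in `Abn` (compare `Lib/SRSard/FC.lean`, `fc_abn_of_reach`)
-/

namespace H80A

open MeasureTheory Set Filter Topology
open scoped Manifold ContDiff

variable {ι : Type} [Fintype ι] {m : ℕ} (S : PG ι m)

theorem abn_of_reach {f : S.Car → ℝ} (hf : ContDiff ℝ ∞ f) (hf1 : fderiv ℝ f 1 ≠ 0) {Z : Set S.Car}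
    (hZ : Z ⊆ S.crit f) {L : ℝ} {g0 g1 : S.Car} (h : S.Reach Z L g0 g1) :
    g0⁻¹ * g1 ∈ SRSard.Abn 𝓘(ℝ, S.Car) S.End := by
  obtain ⟨hL, w, hw, h1, hZ'⟩ := h
  obtain ⟨W, hW⟩ := exists_L2_of_ctrl S hw hL
  refine ⟨W, ?_, ?_⟩
  · have e := hW 1 ⟨zero_le_one, le_rfl⟩
    rw [mul_one] at e
    change S.gam (ctl W) 1 = _
    rw [e, ← h1, inv_mul_cancel_left]
  · rw [mfderiv_eq_fderiv]
    apply crit_not_surjective S hf hf1 (g0 := g0)
    intro t ht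
    rw [hW t ht]
    exact hZ (hZ' _ ⟨mul_nonneg hL ht.1, mul_le_of_le_one_right hL ht.2⟩)

end H80A
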