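import Pool.Agent.Lib.H80A.PG1

/-!
# Chunk PG2: `gam w` for measurable bounded `w` (`Ctrl w`): continuity, absolute continuity, derivative

`ctrl_int`: for continuous `f` the function `w s j * f s` is interval integrable.  Continuity of
`pic w n` by induction on `n` (an integral of an interval integrable function is continuous,
`intervalIntegral.continuous_primitive`; `MvPolynomial.eval` of a continuous curve is continuous,
`MvPolynomial.continuous_eval`).  Derivative almost everywhere: Lebesgue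
(`IntervalIntegrable.ae_hasDerivAt_integral`, see `Lib/SRSard/LB.lean`).
-/

namespace H80A

open MeasureTheory Set Filter Topology

variable {ι : Type} [Fintype ι] {m : ℕ} (S : PG ι m)

theorem pg2_meas {w : ℝ → Fin m → ℝ} (hw : Ctrl w) (j : Fin m) : Measurable (fun s => w s j) :=
  (measurable_pi_apply j).comp hw.meas

theorem pg2_bound {w : ℝ → Fin m → ℝ} (hw : Ctrl w) (j : Fin m) (s : ℝ) : ‖w s j‖ ≤ 1 :=
  (norm_le_pi_norm (w s) j).trans (hw.bound s)

theorem ctrl_int {w : ℝ → Fin m → ℝ} (hw : Ctrl w) (j : Fin m) {f : ℝ → ℝ} (hf : Continuous f)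
    (a b : ℝ) : IntervalIntegrable (fun s => w s j * f s) volume a b := by
  have h1 : IntervalIntegrable f volume a b := hf.intervalIntegrable a b
  rw [intervalIntegrable_iff] at h1 ⊢
  exact h1.bdd_mul (c := 1) (pg2_meas hw j).aestronglyMeasurable
    (Filter.Eventually.of_forall fun s => pg2_bound hw j s)

theorem pg2_eval_cont {η : ℝ → S.Car} (hη : Continuous η) (p : MvPolynomial ι ℝ) :
    Continuous (fun s => MvPolynomial.eval (η s) p) := by
  have h1 : Continuous (fun x : ι → ℝ => MvPolynomial.eval x p) := MvPolynomial.continuous_eval p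
  have h2 : Continuous (fun s => (η s : ι → ℝ)) := hη
  exact h1.comp h2

theorem pg2_sum_int {w : ℝ → Fin m → ℝ} (hw : Ctrl w) {η : ℝ → S.Car} (hη : Continuous η) (k : ι)
    (a b : ℝ) :
    IntervalIntegrable (fun s => ∑ j, w s j * MvPolynomial.eval (η s) (S.fld k j))
      volume a b := by
  have h := IntervalIntegrable.sum (μ := volume) (a := a) (b := b) (Finset.univ : Finset (Fin m))
    (f := fun j s => w s j * MvPolynomial.eval (η s) (S.fld k j))
    (fun j _ => ctrl_int hw j (pg2_eval_cont S hη (S.fld k j)) a b)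
  have e2 : (fun s => ∑ j, w s j * MvPolynomial.eval (η s) (S.fld k j))
      = ∑ j : Fin m, fun s => w s j * MvPolynomial.eval (η s) (S.fld k j) := by
    funext s; rw [Finset.sum_apply]
  rw [e2]
  exact h

theorem pg2_pic_cont {w : ℝ → Fin m → ℝ} (hw : Ctrl w) (n : ℕ) : Continuous (S.pic w n) := by
  induction n with
  | zero => exact continuous_const
  | succ n ih =>
    refine (continuous_pi (X := ℝ) (A := fun _ : ι => ℝ) fun k => ?_)
    exact intervalIntegral.continuous_primitive (fun a b => pg2_sum_int S hw ih k a b) 0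

theorem gam_continuous {w : ℝ → Fin m → ℝ} (hw : Ctrl w) : Continuous (S.gam w) :=
  pg2_pic_cont S hw _

theorem gam_integrand {w : ℝ → Fin m → ℝ} (hw : Ctrl w) (k : ι) (a b : ℝ) :
    IntervalIntegrable (fun s => ∑ j, w s j * MvPolynomial.eval (S.gam w s) (S.fld k j))
      volume a b :=
  pg2_sum_int S hw (gam_continuous S hw) k a b

/-- the curve is locally Lipschitz -/
theorem gam_lipschitz {w : ℝ → Fin m → ℝ} (hw : Ctrl w) (L : ℝ) :
    ∃ K : NNReal, LipschitzOnWith K (S.gam w) (Icc (-L) L) := by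
  have hc : Continuous (fun s => ∑ k : ι, ∑ j, |MvPolynomial.eval (S.gam w s) (S.fld k j)|) := by
    refine continuous_finsetSum _ fun k _ => continuous_finsetSum _ fun j _ => ?_
    exact (pg2_eval_cont S (gam_continuous S hw) (S.fld k j)).abs
  obtain ⟨C, hC⟩ := (isCompact_Icc (a := -L) (b := L)).exists_bound_of_continuousOn hc.continuousOn
  refine ⟨Real.toNNReal C, LipschitzOnWith.of_dist_le_mul ?_⟩
  intro x hx y hy
  have hC0 : 0 ≤ C := (norm_nonneg _).trans (hC x hx)
  rw [Real.coe_toNNReal C hC0]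
  refine (dist_pi_le_iff (by positivity)).2 fun k => ?_
  have h1 : S.gam w x k - S.gam w y k =
      ∫ s in y..x, ∑ j, w s j * MvPolynomial.eval (S.gam w s) (S.fld k j) := by
    rw [gam_eq S w k x, gam_eq S w k y]
    exact intervalIntegral.integral_interval_sub_left (gam_integrand S hw k 0 x)
      (gam_integrand S hw k 0 y)
  have h2 : ‖∫ s in y..x, ∑ j, w s j * MvPolynomial.eval (S.gam w s) (S.fld k j)‖ ≤
      C * |x - y| := by
    refine intervalIntegral.norm_integral_le_of_norm_le_const fun s hs => ?_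
    have hs' : s ∈ Icc (-L) L := by
      have h3 : uIoc y x ⊆ uIcc y x := uIoc_subset_uIcc
      exact (uIcc_subset_Icc hy hx) (h3 hs)
    have h4 := hC s hs'
    have h5 : ‖∑ j, w s j * MvPolynomial.eval (S.gam w s) (S.fld k j)‖ ≤
        ∑ j, |MvPolynomial.eval (S.gam w s) (S.fld k j)| := by
      refine (norm_sum_le _ _).trans (Finset.sum_le_sum fun j _ => ?_)
      rw [norm_mul]
      calc ‖w s j‖ * ‖MvPolynomial.eval (S.gam w s) (S.fld k j)‖
          ≤ 1 * ‖MvPolynomial.eval (S.gam w s) (S.fld k j)‖ :=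
            mul_le_mul_of_nonneg_right (pg2_bound hw j s) (norm_nonneg _)
        _ = _ := by rw [one_mul, Real.norm_eq_abs]
    refine h5.trans (le_trans ?_ ((le_abs_self _).trans h4))
    exact Finset.single_le_sum
      (f := fun k => ∑ j, |MvPolynomial.eval (S.gam w s) (S.fld k j)|)
      (fun k _ => Finset.sum_nonneg fun j _ => abs_nonneg _) (Finset.mem_univ k)
  rw [Real.dist_eq, Real.dist_eq]
  change |S.gam w x k - S.gam w y k| ≤ _
  rw [h1]
  exact h2

theorem pg2_hor_apply (g : S.Car) (c : Fin m → ℝ) (k : ι) :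
    S.hor g c k = ∑ j, c j * MvPolynomial.eval g (S.fld k j) := by
  have h : ∀ f : Fin m → (ι → ℝ), (∑ j, f j) k = ∑ j, f j k := fun f => Finset.sum_apply k _ f
  exact h (fun j => c j • S.fv g j)

theorem gam_deriv_ctrl {w : ℝ → Fin m → ℝ} (hw : Ctrl w) :
    ∀ᵐ t ∂volume, HasDerivAt (S.gam w) (S.hor (S.gam w t) (w t)) t := by
  have h1 : ∀ᵐ t ∂(volume : Measure ℝ), ∀ k : ι, ∀ n : ℕ, t ∈ uIcc (-(n:ℝ)) n →
      ∀ c ∈ uIcc (-(n:ℝ)) n,
        HasDerivAt (fun x => ∫ s in c..x, ∑ j, w s j * MvPolynomial.eval (S.gam w s) (S.fld k j))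
          (∑ j, w t j * MvPolynomial.eval (S.gam w t) (S.fld k j)) t := by
    rw [ae_all_iff]
    intro k
    rw [ae_all_iff]
    intro n
    exact (gam_integrand S hw k (-(n:ℝ)) n).ae_hasDerivAt_integral
  filter_upwards [h1] with t ht
  refine (hasDerivAt_pi (E' := fun _ : ι => ℝ)).2 fun k => ?_
  obtain ⟨n, hn⟩ := exists_nat_ge |t|
  have hn0 : (0:ℝ) ≤ n := Nat.cast_nonneg n
  have h2 : t ∈ uIcc (-(n:ℝ)) n := by
    rw [uIcc_of_le (by linarith)]
    exact abs_le.1 hn
  have h3 : (0:ℝ) ∈ uIcc (-(n:ℝ)) n := by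
    rw [uIcc_of_le (by linarith)]
    exact ⟨by linarith, hn0⟩
  have h4 := ht k n h2 0 h3
  rw [pg2_hor_apply]
  have e : (fun x => S.gam w x k) =
      fun x => ∫ s in (0:ℝ)..x, ∑ j, w s j * MvPolynomial.eval (S.gam w s) (S.fld k j) :=
    funext fun x => gam_eq S w k x
  rw [e]
  exact h4

theorem pg2_integrand_cont {w : ℝ → Fin m → ℝ} (hw : Continuous w) {η : ℝ → S.Car}
    (hη : Continuous η) (k : ι) :
    Continuous (fun s => ∑ j, w s j * MvPolynomial.eval (η s) (S.fld k j)) := by
  refine continuous_finsetSum _ fun j _ => ?_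
  exact ((continuous_apply j).comp hw).mul (pg2_eval_cont S hη (S.fld k j))

theorem pg2_pic_cont' {w : ℝ → Fin m → ℝ} (hw : Continuous w) (n : ℕ) :
    Continuous (S.pic w n) := by
  induction n with
  | zero => exact continuous_const
  | succ n ih =>
    refine (continuous_pi (X := ℝ) (A := fun _ : ι => ℝ) fun k => ?_)
    exact intervalIntegral.continuous_primitive
      (fun a b => (pg2_integrand_cont S hw ih k).intervalIntegrable a b) 0

theorem pg2_gam_cont' {w : ℝ → Fin m → ℝ} (hw : Continuous w) : Continuous (S.gam w) :=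
  pg2_pic_cont' S hw _

/-- for a continuous control the curve is differentiable everywhere -/
theorem gam_deriv_cont {w : ℝ → Fin m → ℝ} (hw : Continuous w) (t : ℝ) :
    HasDerivAt (S.gam w) (S.hor (S.gam w t) (w t)) t := by
  refine (hasDerivAt_pi (E' := fun _ : ι => ℝ)).2 fun k => ?_
  rw [pg2_hor_apply]
  have e : (fun x => S.gam w x k) =
      fun x => ∫ s in (0:ℝ)..x, ∑ j, w s j * MvPolynomial.eval (S.gam w s) (S.fld k j) :=
    funext fun x => gam_eq S w k x
  rw [e]
  have h := (pg2_integrand_cont S hw (pg2_gam_cont' S hw) k).integral_hasStrictDerivAt 0 t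
  exact h.hasDerivAt

/-- a locally Lipschitz curve with the right derivative almost everywhere is `η 0 * gam`; here for
`η 0 = 1`. -/
theorem gam_of_lipschitz {w : ℝ → Fin m → ℝ} (hw : Ctrl w) {L : ℝ} {η : ℝ → S.Car} {K : NNReal}
    (hη : LipschitzOnWith K η (Icc 0 L)) (h0 : η 0 = 1)
    (hd : ∀ᵐ t ∂volume, t ∈ Ioo (0:ℝ) L → HasDerivAt η (S.hor (η t) (w t)) t) :
    ∀ t ∈ Icc (0:ℝ) L, η t = S.gam w t := by
  refine gam_unique S w η fun t ht k => ?_
  have h1 : LipschitzOnWith K (fun s => η s k) (uIcc 0 t) := by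
    refine LipschitzOnWith.of_dist_le_mul fun x hx y hy => ?_
    rw [uIcc_of_le ht.1] at hx hy
    have h2 := hη.dist_le_mul x ⟨hx.1, hx.2.trans ht.2⟩ y ⟨hy.1, hy.2.trans ht.2⟩
    exact (dist_le_pi_dist (X := fun _ : ι => ℝ) (η x) (η y) k).trans h2
  have h2 := h1.absolutelyContinuousOnInterval.integral_deriv_eq_sub
  have h3 : η 0 k = 0 := by rw [h0]; rfl
  simp only [h3, sub_zero] at h2
  rw [← h2]
  refine intervalIntegral.integral_congr_ae ?_
  have h4 : ∀ᵐ x ∂(volume : Measure ℝ), x ≠ t := by simp [ae_iff, measure_singleton]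
  filter_upwards [hd, h4] with s hs hst hmem
  rw [uIoc_of_le ht.1] at hmem
  have h5 : s ∈ Ioo (0:ℝ) L := ⟨hmem.1, lt_of_lt_of_le (lt_of_le_of_ne hmem.2 hst) ht.2⟩
  have h6 := (hasDerivAt_pi (E' := fun _ : ι => ℝ)).1 (hs h5) k
  rw [pg2_hor_apply] at h6
  exact h6.deriv

end H80A
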