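import Pool.Agent.Lib.H80A.PG2

/-!
# Chunk PG3: left invariance, concatenation and reversal of curves

`hor_left_invariant`: `S.left` and the chain rule (`S.mul` is smooth).
`gam_eq_of_hasDerivAt`: apply `gam_unique`-type uniqueness (or a direct induction on the rank) to
`(η 0)⁻¹ * η`.
`gam_add` for `t ≥ 0`: `η t = (gam w s)⁻¹ * gam w (s + t)` is locally Lipschitz (composition of a
`C¹` map and a Lipschitz curve on a compact set) with the right derivative almost everywhere, so it is
`gam (w (s + ·))` by `gam_of_lipschitz`.  For `t < 0` replace `s` by `s + t` and `t` by `-t`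
(`gam_scale` with `c = -1` turns negative times into positive ones), see `Lib/SRSard/TrajB.lean`.
`gam_rev` as there.
-/

namespace H80A

open MeasureTheory Set Filter Topology
open scoped ContDiff

variable {ι : Type} [Fintype ι] {m : ℕ} (S : PG ι m)

theorem contDiff_mul : ContDiff ℝ ∞ (fun p : S.Car × S.Car => p.1 * p.2) := S.mul_smooth

theorem contDiff_inv : ContDiff ℝ ∞ (fun g : S.Car => g⁻¹) := S.inv_smooth

theorem hor_add (g : S.Car) (c d : Fin m → ℝ) : S.hor g (c + d) = S.hor g c + S.hor g d := by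
  unfold PG.hor
  rw [← Finset.sum_add_distrib]
  exact Finset.sum_congr rfl fun j _ => add_smul _ _ _

theorem hor_smul (g : S.Car) (r : ℝ) (c : Fin m → ℝ) : S.hor g (r • c) = r • S.hor g c := by
  unfold PG.hor
  rw [Finset.smul_sum]
  exact Finset.sum_congr rfl fun j _ => (smul_smul r (c j) _).symm

theorem hor_apply (g : S.Car) (c : Fin m → ℝ) (k : ι) :
    S.hor g c k = ∑ j, c j * MvPolynomial.eval g (S.fld k j) := pg2_hor_apply S g c k

theorem pg3_mul_left (k : S.Car) : ContDiff ℝ ∞ (fun g : S.Car => k * g) :=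
  (contDiff_mul S).comp (contDiff_const.prodMk contDiff_id)

theorem hor_left_invariant {η : ℝ → S.Car} {c : Fin m → ℝ} {t : ℝ} (k : S.Car)
    (h : HasDerivAt η (S.hor (η t) c) t) :
    HasDerivAt (fun s => k * η s) (S.hor (k * η t) c) t := by
  have h1 : HasFDerivAt (fun g : S.Car => k * g) (fderiv ℝ (fun g : S.Car => k * g) (η t)) (η t) :=
    ((pg3_mul_left S k).differentiable (by simp)).differentiableAt.hasFDerivAt
  have h2 := h1.comp_hasDerivAt t h
  have h3 : fderiv ℝ (fun g : S.Car => k * g) (η t) (S.hor (η t) c) = S.hor (k * η t) c := by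
    unfold PG.hor
    rw [map_sum]
    refine Finset.sum_congr rfl fun j _ => ?_
    rw [map_smul]
    congr 1
    exact S.left k (η t) j
  rw [h3] at h2
  exact h2

theorem pg3_unique {η : ℝ → S.Car} {w : ℝ → Fin m → ℝ} (hw : Continuous w)
    (h : ∀ t, HasDerivAt η (S.hor (η t) (w t)) t) (h0 : η 0 = 1) {t : ℝ} (ht : 0 ≤ t) :
    η t = S.gam w t := by
  refine gam_unique S w (L := t) η (fun r hr k => ?_) t ⟨ht, le_rfl⟩
  have hηc : Continuous η := continuous_iff_continuousAt.2 fun s => (h s).continuousAt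
  have hk : ∀ s, HasDerivAt (fun s => η s k)
      (∑ j, w s j * MvPolynomial.eval (η s) (S.fld k j)) s := by
    intro s
    have h1 := (hasDerivAt_pi (E' := fun _ : ι => ℝ)).1 (h s) k
    rw [pg2_hor_apply] at h1
    exact h1
  rw [intervalIntegral.integral_eq_sub_of_hasDerivAt (fun s _ => hk s)
    ((pg2_integrand_cont S hw hηc k).intervalIntegrable _ _), h0]
  change η r k = η r k - 0
  rw [sub_zero]

theorem gam_eq_of_hasDerivAt {η : ℝ → S.Car} {w : ℝ → Fin m → ℝ} (hw : Continuous w)
    (h : ∀ t, HasDerivAt η (S.hor (η t) (w t)) t) (t : ℝ) : η t = η 0 * S.gam w t := by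
  have key : (η 0)⁻¹ * η t = S.gam w t := by
    rcases le_total 0 t with ht | ht
    · refine pg3_unique S (η := fun s => (η 0)⁻¹ * η s) hw (fun s => ?_) (inv_mul_cancel _) ht
      exact hor_left_invariant S _ (h s)
    · have hw' : Continuous (fun s => (-1 : ℝ) • w (-1 * s)) := by fun_prop
      have h1 : (η 0)⁻¹ * η (-1 * (-t)) = S.gam (fun s => (-1 : ℝ) • w (-1 * s)) (-t) := by
        refine pg3_unique S (η := fun s => (η 0)⁻¹ * η (-1 * s)) hw' (fun s => ?_) ?_
          (by linarith)
        · have h2 := hor_left_invariant S (η 0)⁻¹ (h (-1 * s))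
          have h3 : HasDerivAt (fun s : ℝ => -1 * s) (-1 * 1) s := (hasDerivAt_id s).const_mul (-1)
          have h4 := h2.scomp s h3
          rw [mul_one] at h4
          rw [hor_smul]
          exact h4
        · simp only [mul_zero]
          exact inv_mul_cancel _
      rw [gam_scale S w (by norm_num) (-t)] at h1
      have h2 : -1 * -t = t := by ring
      rw [h2] at h1
      exact h1
  rw [← key, mul_inv_cancel_left]

theorem ctrl_shift {w : ℝ → Fin m → ℝ} (hw : Ctrl w) (s : ℝ) : Ctrl (fun r => w (s + r)) :=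
  ⟨hw.meas.comp (measurable_const_add s), fun t => hw.bound (s + t)⟩

theorem pg3_ctrl {w : ℝ → Fin m → ℝ} (hw : Ctrl w) (s : ℝ) {c : ℝ} (hc : |c| ≤ 1) :
    Ctrl (fun r => c • w (s + c * r)) := by
  refine ⟨?_, fun t => ?_⟩
  · have h1 : Measurable (fun r : ℝ => s + c * r) := (measurable_const_mul c).const_add s
    exact (hw.meas.comp h1).const_smul c
  · rw [norm_smul, Real.norm_eq_abs]
    calc |c| * ‖w (s + c * t)‖ ≤ 1 * 1 :=
          mul_le_mul hc (hw.bound _) (norm_nonneg _) zero_le_one
      _ = 1 := one_mul 1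

theorem pg3_lip {w : ℝ → Fin m → ℝ} (hw : Ctrl w) : LocallyLipschitz (S.gam w) := by
  intro x
  obtain ⟨K, hK⟩ := gam_lipschitz S hw (|x| + 1)
  refine ⟨K, Icc (-(|x| + 1)) (|x| + 1), ?_, hK⟩
  apply Icc_mem_nhds
  · have := neg_abs_le x
    linarith
  · have := le_abs_self x
    linarith

theorem pg3_shift {w : ℝ → Fin m → ℝ} (hw : Ctrl w) (s : ℝ) {c : ℝ} (hc : |c| ≤ 1)
    (hq : ∀ p : ℝ → Prop, (∀ᵐ x ∂volume, p x) → ∀ᵐ x ∂volume, p (s + c * x)) {t : ℝ}
    (ht : 0 ≤ t) :
    (S.gam w s)⁻¹ * S.gam w (s + c * t) = S.gam (fun r => c • w (s + c * r)) t := by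
  have hLL : LocallyLipschitz (fun r => (S.gam w s)⁻¹ * S.gam w (s + c * r)) := by
    have h1 : LocallyLipschitz (fun g : S.Car => (S.gam w s)⁻¹ * g) :=
      ((pg3_mul_left S _).of_le (by simp)).locallyLipschitz
    have h2 : LocallyLipschitz (fun r : ℝ => s + c * r) := by
      have h3 : ContDiff ℝ 1 (fun r : ℝ => s + c * r) :=
        contDiff_const.add (contDiff_const.mul contDiff_id)
      exact h3.locallyLipschitz
    exact h1.comp ((pg3_lip S hw).comp h2)
  obtain ⟨K, hK⟩ := (hLL.locallyLipschitzOn (s := Icc 0 t)).exists_lipschitzOnWith_of_compact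
    isCompact_Icc
  refine gam_of_lipschitz S (pg3_ctrl hw s hc) hK ?_ ?_ t ⟨ht, le_rfl⟩
  · simp only [mul_zero, add_zero]
    exact inv_mul_cancel _
  · have h1 := hq _ (gam_deriv_ctrl S hw)
    filter_upwards [h1] with r hr _
    have h2 : HasDerivAt (fun r : ℝ => s + c * r) (c * 1) r :=
      ((hasDerivAt_id r).const_mul c).const_add s
    rw [mul_one] at h2
    have h3 := (hor_left_invariant S (S.gam w s)⁻¹ hr).scomp r h2
    rw [hor_smul]
    exact h3

theorem pg3_pos {w : ℝ → Fin m → ℝ} (hw : Ctrl w) (s : ℝ) {t : ℝ} (ht : 0 ≤ t) :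
    (S.gam w s)⁻¹ * S.gam w (s + t) = S.gam (fun r => w (s + r)) t := by
  have h := pg3_shift S hw s (c := 1) (by simp) (fun p hp => ?_) ht
  · simpa only [one_mul, one_smul] using h
  · have h1 : MeasurePreserving (fun x : ℝ => s + x) volume volume :=
      measurePreserving_add_left volume s
    simp only [one_mul]
    exact h1.quasiMeasurePreserving.ae hp

theorem pg3_neg {w : ℝ → Fin m → ℝ} (hw : Ctrl w) (s : ℝ) {t : ℝ} (ht : 0 ≤ t) :
    (S.gam w s)⁻¹ * S.gam w (s - t) = S.gam (fun r => - w (s - r)) t := by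
  have h := pg3_shift S hw s (c := -1) (by simp) (fun p hp => ?_) ht
  · simpa only [neg_mul, one_mul, neg_smul, one_smul, ← sub_eq_add_neg] using h
  · have h1 : MeasurePreserving (fun x : ℝ => s - x) volume volume :=
      Measure.measurePreserving_sub_left volume s
    simp only [neg_mul, one_mul, ← sub_eq_add_neg]
    exact h1.quasiMeasurePreserving.ae hp

theorem gam_add {w : ℝ → Fin m → ℝ} (hw : Ctrl w) (s t : ℝ) :
    S.gam w (s + t) = S.gam w s * S.gam (fun r => w (s + r)) t := by
  rcases le_total 0 t with ht | ht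
  · rw [← pg3_pos S hw s ht, mul_inv_cancel_left]
  · have h1 := pg3_neg S hw s (t := -t) (by linarith)
    have h2 := gam_scale S (fun r => w (s + r)) (c := -1) (by norm_num) (-t)
    have h3 : (fun r => - w (s - r)) = fun r => (-1 : ℝ) • (fun r => w (s + r)) (-1 * r) := by
      funext r
      simp only [neg_mul, one_mul, neg_smul, one_smul, ← sub_eq_add_neg]
    rw [h3, h2, show -1 * -t = t by ring, show s - -t = s + t by ring] at h1
    rw [← h1, mul_inv_cancel_left]

theorem gam_rev {w : ℝ → Fin m → ℝ} (hw : Ctrl w) (L t : ℝ) :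
    S.gam (fun r => - w (L - r)) t = (S.gam w L)⁻¹ * S.gam w (L - t) := by
  have h1 := gam_add S hw L (-t)
  have h2 := gam_scale S (fun r => w (L + r)) (c := -1) (by norm_num) t
  have h3 : (fun r => - w (L - r)) = fun r => (-1 : ℝ) • (fun r => w (L + r)) (-1 * r) := by
    funext r
    simp only [neg_mul, one_mul, neg_smul, one_smul, ← sub_eq_add_neg]
  rw [h3, h2, show -1 * t = -t by ring, sub_eq_add_neg, h1, inv_mul_cancel_left]

end H80A
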