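import Pool.Agent.Lib.H80A.PG3

/-!
# Chunk PG4: constrained reachability (copy of `Lib/SRSard/Reach.lean`)

New compared with SRSard: `Reach.infinite` PRODUCES the limit point (`gam w` is continuous, so
`g 0 * gam w (T n) = g n` converges to `g 0 * gam w (∑' ℓ)`), and `Z` is any closed set.
`reach_const_ctrl`: the control `c` (constant), scaled to norm `≤ 1`.
-/

namespace H80A

open MeasureTheory Set Filter Topology

variable {ι : Type} [Fintype ι] {m : ℕ} {S : PG ι m} {Z : Set S.Car}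

theorem Reach.mem_left {L : ℝ} {g h : S.Car} (H : S.Reach Z L g h) : g ∈ Z := by
  obtain ⟨hL, w, hw, -, hZ⟩ := H
  have := hZ 0 ⟨le_rfl, hL⟩
  rwa [gam_zero, mul_one] at this

theorem Reach.mem_right {L : ℝ} {g h : S.Car} (H : S.Reach Z L g h) : h ∈ Z := by
  obtain ⟨hL, w, hw, he, hZ⟩ := H
  have := hZ L ⟨hL, le_rfl⟩
  rwa [he] at this

theorem pg4_zero_ctrl : Ctrl (fun _ : ℝ => (0 : Fin m → ℝ)) :=
  ⟨measurable_const, fun _ => by rw [norm_zero]; exact zero_le_one⟩

theorem pg4_const {L : ℝ} (hL : 0 ≤ L) {g : S.Car} (hg : g ∈ Z) : S.Reach Z L g g := by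
  refine ⟨hL, fun _ => 0, pg4_zero_ctrl, ?_, fun t _ => ?_⟩
  · rw [gam_zero_ctrl, mul_one]
  · rw [gam_zero_ctrl, mul_one]; exact hg

theorem Reach.refl {g : S.Car} (hg : g ∈ Z) : S.Reach Z 0 g g := pg4_const le_rfl hg

theorem Reach.symm {L : ℝ} {g h : S.Car} (H : S.Reach Z L g h) : S.Reach Z L h g := by
  obtain ⟨hL, w, hw, he, hZ⟩ := H
  have key : ∀ t, h * S.gam (fun r => - w (L - r)) t = g * S.gam w (L - t) := by
    intro t
    rw [gam_rev S hw, ← he, mul_assoc, mul_inv_cancel_left]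
  refine ⟨hL, fun r => - w (L - r), ⟨?_, fun t => ?_⟩, ?_, fun t ht => ?_⟩
  · exact (hw.meas.comp (measurable_const.sub measurable_id)).neg
  · rw [norm_neg]; exact hw.bound _
  · rw [key, sub_self, gam_zero, mul_one]
  · rw [key]
    exact hZ _ ⟨by linarith [ht.2], by linarith [ht.1]⟩

theorem Reach.trans {L₁ L₂ : ℝ} {g h k : S.Car} (H₁ : S.Reach Z L₁ g h)
    (H₂ : S.Reach Z L₂ h k) : S.Reach Z (L₁ + L₂) g k := by
  classical
  obtain ⟨hL₁, w₁, hw₁, he₁, hZ₁⟩ := H₁
  obtain ⟨hL₂, w₂, hw₂, he₂, hZ₂⟩ := H₂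
  set w : ℝ → Fin m → ℝ := fun t => if t ≤ L₁ then w₁ t else w₂ (t - L₁) with hwdef
  have hw : Ctrl w := by
    refine ⟨Measurable.ite measurableSet_Iic hw₁.meas
      (hw₂.meas.comp (measurable_id.sub measurable_const)), fun t => ?_⟩
    simp only [hwdef]
    split_ifs
    · exact hw₁.bound _
    · exact hw₂.bound _
  have e1 : ∀ t, 0 ≤ t → t ≤ L₁ → S.gam w t = S.gam w₁ t := by
    intro t ht0 ht1
    refine gam_congr S ht0 fun s hs => ?_
    simp only [hwdef]
    rw [if_pos (hs.2.trans ht1)]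
  have e2 : ∀ r, 0 ≤ r → g * S.gam w (L₁ + r) = h * S.gam w₂ r := by
    intro r hr
    rw [gam_add S hw, e1 L₁ hL₁ le_rfl, ← mul_assoc, he₁]
    congr 1
    refine gam_congr S hr fun s hs => ?_
    simp only [hwdef]
    rw [if_neg (by linarith [hs.1]), add_sub_cancel_left]
  refine ⟨by linarith, w, hw, ?_, fun t ht => ?_⟩
  · rw [e2 L₂ hL₂, he₂]
  · rcases le_total t L₁ with h1 | h1
    · rw [e1 t ht.1 h1]
      exact hZ₁ t ⟨ht.1, h1⟩
    · have h2 := e2 (t - L₁) (by linarith)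
      rw [add_sub_cancel] at h2
      rw [h2]
      exact hZ₂ _ ⟨by linarith, by linarith [ht.2]⟩

theorem Reach.mono {L L' : ℝ} {g h : S.Car} (H : S.Reach Z L g h) (hL : L ≤ L') :
    S.Reach Z L' g h := by
  have h1 := Reach.trans H (pg4_const (L := L' - L) (by linarith) (Reach.mem_right H))
  rwa [add_sub_cancel] at h1

/-- gluing countably many controls -/
theorem pg4_glue {T : ℕ → ℝ} (hT : Monotone T) {v : ℕ → ℝ → Fin m → ℝ} (hv : ∀ n, Ctrl (v n)) :
    ∃ w : ℝ → Fin m → ℝ, Ctrl w ∧ ∀ n, ∀ s ∈ Ioc (T n) (T (n + 1)), w s = v n (s - T n) := by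
  classical
  set p : ℕ → ℝ → Prop := fun n s => s ∈ Ioc (T n) (T (n + 1)) ∨
    ∀ m, s ∉ Ioc (T m) (T (m + 1)) with hp
  set f : ℕ → ℝ → Fin m → ℝ :=
    fun n s => if s ∈ Ioc (T n) (T (n + 1)) then v n (s - T n) else 0 with hf
  have hex : ∀ s, ∃ n, p n s := by
    intro s
    by_cases h : ∃ n, s ∈ Ioc (T n) (T (n + 1))
    · obtain ⟨n, hn⟩ := h
      exact ⟨n, Or.inl hn⟩
    · exact ⟨0, Or.inr fun m hm => h ⟨m, hm⟩⟩
  have hfm : ∀ n, Measurable (f n) := fun n =>
    Measurable.ite measurableSet_Ioc ((hv n).meas.comp (measurable_id.sub measurable_const))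
      measurable_const
  have hpm : ∀ n, MeasurableSet {s | p n s} := by
    intro n
    have : {s | p n s} = Ioc (T n) (T (n + 1)) ∪ ⋂ m, (Ioc (T m) (T (m + 1)))ᶜ := by
      ext s
      simp [hp]
    rw [this]
    exact measurableSet_Ioc.union (MeasurableSet.iInter fun m => measurableSet_Ioc.compl)
  refine ⟨fun s => f (Nat.find (hex s)) s, ⟨Measurable.find hfm hpm hex, fun s => ?_⟩,
    fun n s hs => ?_⟩
  · simp only [hf]
    split_ifs
    · exact (hv _).bound _
    · rw [norm_zero]; exact zero_le_one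
  · have h1 := Nat.find_spec (hex s)
    set m := Nat.find (hex s) with hm
    have h2 : s ∈ Ioc (T m) (T (m + 1)) := by
      rcases h1 with h1 | h1
      · exact h1
      · exact absurd hs (h1 n)
    have hmn : m = n := by
      rcases lt_trichotomy m n with h3 | h3 | h3
      · have h4 := hT (show m + 1 ≤ n from h3)
        have h5 := h2.2
        have h6 := hs.1
        exact absurd (lt_of_lt_of_le h6 (h5.trans h4)) (lt_irrefl _)
      · exact h3
      · have h4 := hT (show n + 1 ≤ m from h3)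
        have h5 := hs.2
        have h6 := h2.1
        exact absurd (lt_of_lt_of_le h6 (h5.trans h4)) (lt_irrefl _)
    change f m s = v n (s - T n)
    rw [hmn]
    simp only [hf]
    rw [if_pos hs]

theorem pg4_mul_left (g : S.Car) : Continuous (fun h : S.Car => g * h) :=
  (contDiff_mul S).continuous.comp (continuous_const.prodMk continuous_id)

/-- infinite concatenation; the limit point exists -/
theorem Reach.infinite (hZ : IsClosed Z) {g : ℕ → S.Car} {ℓ : ℕ → ℝ}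
    (H : ∀ n, S.Reach Z (ℓ n) (g n) (g (n + 1))) (hs : Summable ℓ) :
    ∃ g' : S.Car, Tendsto g atTop (𝓝 g') ∧ S.Reach Z (∑' n, ℓ n) (g 0) g' := by
  have hℓ : ∀ n, 0 ≤ ℓ n := fun n => (H n).1
  choose v hv hve hvZ using fun n => (H n).2
  set T : ℕ → ℝ := fun n => ∑ k ∈ Finset.range n, ℓ k with hTdef
  have hT0 : T 0 = 0 := by simp [hTdef]
  have hTs : ∀ n, T (n + 1) = T n + ℓ n := fun n => by
    simp only [hTdef]; rw [Finset.sum_range_succ]
  have hT : Monotone T := monotone_nat_of_le_succ fun n => by rw [hTs]; linarith [hℓ n]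
  have hTL : Tendsto T atTop (𝓝 (∑' n, ℓ n)) := hs.hasSum.tendsto_sum_nat
  have hTle : ∀ n, T n ≤ ∑' n, ℓ n := fun n => hT.ge_of_tendsto hTL n
  obtain ⟨w, hw, hwv⟩ := pg4_glue hT hv
  have hTn0 : ∀ n, 0 ≤ T n := fun n => by
    have := hT (Nat.zero_le n)
    rwa [hT0] at this
  have hstep : ∀ n r, 0 ≤ r → r ≤ ℓ n → S.gam w (T n + r) = S.gam w (T n) * S.gam (v n) r := by
    intro n r hr0 hr1
    rw [gam_add S hw]
    congr 1
    refine gam_congr S hr0 fun s hs' => ?_
    rw [hwv n (T n + s) ⟨by linarith [hs'.1], by rw [hTs]; linarith [hs'.2]⟩,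
      add_sub_cancel_left]
  have hA : ∀ n, g 0 * S.gam w (T n) = g n := by
    intro n
    induction n with
    | zero => rw [hT0, gam_zero, mul_one]
    | succ n ih =>
      rw [hTs, hstep n (ℓ n) (hℓ n) le_rfl, ← mul_assoc, ih, hve]
  have hB : ∀ n s, T n ≤ s → s ≤ T (n + 1) → g 0 * S.gam w s ∈ Z := by
    intro n s h1 h2
    have h3 := hstep n (s - T n) (by linarith) (by rw [hTs] at h2; linarith)
    rw [add_sub_cancel] at h3
    rw [h3, ← mul_assoc, hA]
    exact hvZ n _ ⟨by linarith, by rw [hTs] at h2; linarith⟩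
  have hg : Tendsto g atTop (𝓝 (g 0 * S.gam w (∑' n, ℓ n))) := by
    have h1 : Tendsto (fun n => g 0 * S.gam w (T n)) atTop (𝓝 (g 0 * S.gam w (∑' n, ℓ n))) :=
      ((pg4_mul_left (g 0)).comp (gam_continuous S hw)).continuousAt.tendsto.comp hTL
    simp only [hA] at h1
    exact h1
  refine ⟨g 0 * S.gam w (∑' n, ℓ n), hg, (hTn0 0).trans (hTle 0), w, hw, rfl, fun s hs' => ?_⟩
  rcases eq_or_lt_of_le hs'.2 with h1 | h1
  · rw [h1]
    exact hZ.mem_of_tendsto hg (Eventually.of_forall fun n => Reach.mem_left (H n))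
  · have hex : ∃ n, s < T n := (hTL.eventually_const_lt h1).exists
    classical
    set N := Nat.find hex with hN
    have h2 : s < T N := Nat.find_spec hex
    have h3 : N ≠ 0 := by
      intro h0
      rw [h0, hT0] at h2
      linarith [hs'.1]
    obtain ⟨m, hm⟩ := Nat.exists_eq_succ_of_ne_zero h3
    have h4 : T m ≤ s := by
      have := Nat.find_min hex (m := m) (by omega)
      exact not_lt.1 this
    refine hB m s h4 ?_
    rw [hm] at h2
    exact h2.le

/-- smooth curves -/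
theorem reach_of_smooth {η : ℝ → S.Car} {w : ℝ → Fin m → ℝ} {c : ℝ} (hc : 0 < c)
    (hw : Continuous w) (h : ∀ t, HasDerivAt η (S.hor (η t) (w t)) t)
    (hb : ∀ t ∈ Icc (0:ℝ) 1, ‖w t‖ ≤ c) (hZ : ∀ t ∈ Icc (0:ℝ) 1, η t ∈ Z) :
    S.Reach Z c (η 0) (η 1) := by
  classical
  set w' : ℝ → Fin m → ℝ :=
    fun r => if r ∈ Icc (0 : ℝ) c then c⁻¹ • w (c⁻¹ * r) else 0 with hw'
  have hcont : Continuous fun r => c⁻¹ • w (c⁻¹ * r) :=
    (hw.comp (continuous_const.mul continuous_id)).const_smul c⁻¹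
  have hC : Ctrl w' := by
    refine ⟨Measurable.ite measurableSet_Icc hcont.measurable measurable_const, fun r => ?_⟩
    simp only [hw']
    split_ifs with hr
    · rw [norm_smul, norm_inv, Real.norm_eq_abs, abs_of_pos hc]
      have h1 : c⁻¹ * r ∈ Icc (0 : ℝ) 1 := by
        refine ⟨mul_nonneg (inv_nonneg.2 hc.le) hr.1, ?_⟩
        rw [inv_mul_le_iff₀ hc, mul_one]
        exact hr.2
      rw [inv_mul_le_iff₀ hc, mul_one]
      exact hb _ h1
    · rw [norm_zero]; exact zero_le_one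
  have key : ∀ r ∈ Icc (0 : ℝ) c, η 0 * S.gam w' r = η (c⁻¹ * r) := by
    intro r hr
    have h1 : S.gam w' r = S.gam (fun r => c⁻¹ • w (c⁻¹ * r)) r := by
      refine gam_congr S hr.1 fun s hs => ?_
      simp only [hw']
      rw [if_pos ⟨hs.1.le, hs.2.trans hr.2⟩]
    have h2 := gam_scale S w (inv_ne_zero hc.ne') r
    rw [h1, h2, ← gam_eq_of_hasDerivAt S hw h]
  refine ⟨hc.le, w', hC, ?_, fun r hr => ?_⟩
  · rw [key c ⟨hc.le, le_rfl⟩, inv_mul_cancel₀ hc.ne']
  · rw [key r hr]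
    refine hZ _ ⟨mul_nonneg (inv_nonneg.2 hc.le) hr.1, ?_⟩
    rw [inv_mul_le_iff₀ hc, mul_one]
    exact hr.2

/-- constant controls: if `g * gam c t` stays in `Z` for `t ∈ [0,1]` -/
theorem reach_const_ctrl {g : S.Car} (c : Fin m → ℝ) {K : ℝ} (hK : ‖c‖ ≤ K)
    (hZ : ∀ t ∈ Icc (0:ℝ) 1, g * S.gam (fun _ => c) t ∈ Z) :
    S.Reach Z K g (g * S.gam (fun _ => c) 1) := by
  have hK0 : 0 ≤ K := (norm_nonneg c).trans hK
  rcases eq_or_lt_of_le hK0 with h0 | h0
  · have hc : c = 0 := by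
      rw [← h0] at hK
      exact norm_le_zero_iff.1 hK
    have hg : g ∈ Z := by
      have := hZ 0 ⟨le_rfl, zero_le_one⟩
      rwa [gam_zero, mul_one] at this
    rw [hc, gam_zero_ctrl, mul_one, ← h0]
    exact Reach.refl hg
  · have key : ∀ r, S.gam (fun _ => K⁻¹ • c) r = S.gam (fun _ => c) (K⁻¹ * r) := by
      intro r
      exact gam_scale S (fun _ => c) (inv_ne_zero h0.ne') r
    refine ⟨hK0, fun _ => K⁻¹ • c, ⟨measurable_const, fun t => ?_⟩, ?_, fun r hr => ?_⟩
    · rw [norm_smul, norm_inv, Real.norm_eq_abs, abs_of_pos h0, inv_mul_le_iff₀ h0, mul_one]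
      exact hK
    · rw [key, inv_mul_cancel₀ h0.ne']
    · rw [key]
      refine hZ _ ⟨mul_nonneg (inv_nonneg.2 h0.le) hr.1, ?_⟩
      rw [inv_mul_le_iff₀ h0, mul_one]
      exact hr.2

/-- a control which drives `g` in `Z` to `h`, transplanted: a left translate of the curve -/
theorem Reach.transplant {Z' : Set S.Car} {L : ℝ} {g h g' : S.Car} (H : S.Reach Z L g h)
    (hZ : ∀ k : S.Car, g * k ∈ Z → g' * k ∈ Z') :
    S.Reach Z' L g' (g' * (g⁻¹ * h)) := by
  obtain ⟨hL, w, hw, he, hZw⟩ := H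
  refine ⟨hL, w, hw, ?_, fun t ht => hZ _ (hZw t ht)⟩
  rw [← he, inv_mul_cancel_left]

end H80A
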