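import Mathlib
import Pool.Agent.Lib.SRSard.General
import Pool.Agent.Lib.SRSard.Statement

/-!
# H80A, generic part: polynomial Lie groups on `ι → ℝ` with a triangular left invariant control system
-/

namespace H80A

open MeasureTheory Set Filter Topology
open scoped Manifold ContDiff

noncomputable section

/-- A Lie group structure on `ι → ℝ` (with `0` as identity) together with `m` left invariant vector
fields with polynomial components; the `k`-th component depends only on coordinates of smaller rank. -/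
structure PG (ι : Type) [Fintype ι] (m : ℕ) where
  mul : (ι → ℝ) → (ι → ℝ) → (ι → ℝ)
  inv : (ι → ℝ) → (ι → ℝ)
  mul_assoc : ∀ a b c, mul (mul a b) c = mul a (mul b c)
  zero_mul : ∀ a, mul 0 a = a
  inv_mul : ∀ a, mul (inv a) a = 0
  mul_smooth : ContDiff ℝ ∞ (fun p : (ι → ℝ) × (ι → ℝ) => mul p.1 p.2)
  inv_smooth : ContDiff ℝ ∞ inv
  rk : ι → ℕ
  fld : ι → Fin m → MvPolynomial ι ℝ
  tri : ∀ k j, ∀ i ∈ (fld k j).vars, rk i < rk k
  left : ∀ (g h : ι → ℝ) (j : Fin m),
    fderiv ℝ (mul g) h (fun k => MvPolynomial.eval h (fld k j)) =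
      fun k => MvPolynomial.eval (mul g h) (fld k j)

variable {ι : Type} [Fintype ι] {m : ℕ}

/-- The underlying type of the group. -/
def PG.Car (_ : PG ι m) : Type := ι → ℝ

variable (S : PG ι m)

instance : NormedAddCommGroup S.Car := inferInstanceAs (NormedAddCommGroup (ι → ℝ))
instance : NormedSpace ℝ S.Car := inferInstanceAs (NormedSpace ℝ (ι → ℝ))
instance : FiniteDimensional ℝ S.Car := inferInstanceAs (FiniteDimensional ℝ (ι → ℝ))
instance : MeasurableSpace S.Car := inferInstanceAs (MeasurableSpace (ι → ℝ))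
instance : BorelSpace S.Car := inferInstanceAs (BorelSpace (ι → ℝ))

instance : Mul S.Car := ⟨S.mul⟩
instance : One S.Car := ⟨(0 : ι → ℝ)⟩
instance : Inv S.Car := ⟨S.inv⟩

theorem PG.mul_def (a b : S.Car) : a * b = S.mul a b := rfl
theorem PG.one_def : (1 : S.Car) = (0 : S.Car) := rfl
theorem PG.inv_def (a : S.Car) : a⁻¹ = S.inv a := rfl

instance : Group S.Car := Group.ofLeftAxioms S.mul_assoc S.zero_mul S.inv_mul

/-- The value at `g` of the `j`-th field. -/
def PG.fv (g : S.Car) (j : Fin m) : S.Car := fun k => MvPolynomial.eval g (S.fld k j)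

/-- The horizontal vector with control `c` at `g`. -/
def PG.hor (g : S.Car) (c : Fin m → ℝ) : S.Car := ∑ j, c j • S.fv g j

/-- Picard iteration for the curve with control `w` issued from the identity. -/
def PG.pic (w : ℝ → Fin m → ℝ) : ℕ → ℝ → S.Car
  | 0 => fun _ => 0
  | n + 1 => fun t k => ∫ s in (0:ℝ)..t, ∑ j, w s j * MvPolynomial.eval (PG.pic w n s) (S.fld k j)

/-- The horizontal curve with control `w` issued from the identity (the Picard iteration stops). -/
def PG.gam (w : ℝ → Fin m → ℝ) : ℝ → S.Car := S.pic w ((Finset.univ.sup S.rk) + 1)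

/-- Controls for finite curves: measurable and bounded by `1`. -/
structure Ctrl (w : ℝ → Fin m → ℝ) : Prop where
  meas : Measurable w
  bound : ∀ t, ‖w t‖ ≤ 1

/-- `S.Reach Z L g h`: there is a horizontal curve from `g` to `h`, parametrized by `[0, L]`, with
control bounded by `1`, all of whose points lie in `Z`. -/
def PG.Reach (Z : Set S.Car) (L : ℝ) (g h : S.Car) : Prop :=
  0 ≤ L ∧ ∃ w : ℝ → Fin m → ℝ, Ctrl w ∧ g * S.gam w L = h ∧ ∀ t ∈ Icc (0:ℝ) L, g * S.gam w t ∈ Z

/-- Lebesgue measure on `[0,1]`. -/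
abbrev mu01 : Measure ℝ := volume.restrict (Icc (0:ℝ) 1)

/-- The controls `L²([0,1]; ℝᵐ)`. -/
abbrev L2 (m : ℕ) : Type := Lp (EuclideanSpace ℝ (Fin m)) 2 mu01

/-- A control in `L²` as a function. -/
def ctl (w : L2 m) : ℝ → Fin m → ℝ := fun s j => w s j

/-- The endpoint map. -/
def PG.End (w : L2 m) : S.Car := S.gam (ctl w) 1

/-- The basis of the polarization at the identity. -/
def PG.bas (j : Fin m) : S.Car := S.fv 0 j

/-- The set of points at which `h ↦ f (h g⁻¹)` has zero derivative in all horizontal directions at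
`h = g`. -/
def PG.crit (f : S.Car → ℝ) : Set S.Car :=
  {g | ∀ c : Fin m → ℝ, fderiv ℝ (fun h : S.Car => f (h * g⁻¹)) g (S.hor g c) = 0}

end

end H80A
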